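import Pool.Agent.Lib.MP_9f2731_nt.QL.Rw.Spec

/-!
MP_9f2731_nt, QL/Rw, module Ce (helper64): good base points for the cut norm.
-/

namespace Pool.Agent.Lib.MP_9f2731_nt.QL.Rw

open Finset
open Pool.Agent.Lib.MP_9f2731_nt.GP
open Pool.Agent.Lib.MP_9f2731_nt.GP.Rel
open Pool.Agent.Lib.MP_9f2731_nt.QL

/-- the condition on the test functions in `Cut` -/
private def ceAdm {k : ℕ} {V : Type} (j : Fin k) (h : Fin k → (Fin k → V) → ℝ) : Prop :=
  ∀ i, i ≠ j → Ind i (h i) ∧ ∀ x, 0 ≤ h i x ∧ h i x ≤ 1

private theorem ce_union {G : Type} [DecidableEq G] (A B : Finset G) :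
    ((A ∪ B).card : ℝ) ≤ (A.card : ℝ) + (B.card : ℝ) := by
  exact_mod_cast card_union_le A B

open Classical in
private theorem ce_one (hTb : TbStmt) (G : Type) [AddCommGroup G] [Fintype G] (X : Finset G)
    (K k n0 : ℕ) (ε τ : ℝ) (u : G → ℝ) (hX : X.Nonempty) (hk : 2 ≤ k) (hτ : 0 < τ)
    (hu : ∀ φ ∈ TC k K n0 X, av (fun x => u x * φ x) ≤ ε) (m : ℕ) (hm : m < n0) (j : Fin k) :
    ((univ.filter (fun e : G => ∃ h : Fin k → (Fin k → Fin K → X) → ℝ, ceAdm j h ∧
      τ < av (fun x : Fin k → Fin K → X => u (e + frw m j x) * ∏ i ∈ univ.erase j, h i x))).card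
        : ℝ) ≤ ε / τ * (Fintype.card G : ℝ) := by
  set B : Finset G := univ.filter (fun e : G => ∃ h : Fin k → (Fin k → Fin K → X) → ℝ,
    ceAdm j h ∧ τ < av (fun x : Fin k → Fin K → X =>
      u (e + frw m j x) * ∏ i ∈ univ.erase j, h i x)) with hB
  have hG : (0 : ℝ) < Fintype.card G := by
    have : 0 < Fintype.card G := Fintype.card_pos_iff.mpr ⟨0⟩
    exact_mod_cast this
  have hBh : ∀ e : G, ∃ h : Fin k → (Fin k → Fin K → X) → ℝ, e ∈ B → ceAdm j h ∧
      τ < av (fun x : Fin k → Fin K → X => u (e + frw m j x) * ∏ i ∈ univ.erase j, h i x) := by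
    intro e
    by_cases he : e ∈ B
    · obtain ⟨h, h1⟩ := (mem_filter.mp he).2
      exact ⟨h, fun _ => h1⟩
    · exact ⟨fun _ _ => 0, fun h => absurd h he⟩
  choose hh hhB using hBh
  let H : Fin k → G → (Fin k → Fin K → X) → ℝ := fun i e x =>
    if i = j then 1 else if e ∈ B then hh e i x else 0
  have hH : AdmW H := by
    intro i e
    by_cases hij : i = j
    · have h1 : H i e = fun _ => 1 := by
        funext x
        simp only [H, if_pos hij]
      rw [h1]
      exact ⟨fun x v => rfl, fun x => ⟨zero_le_one, le_refl 1⟩⟩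
    · by_cases he : e ∈ B
      · have h1 : H i e = hh e i := by
          funext x
          simp only [H, if_neg hij, if_pos he]
        rw [h1]
        exact (hhB e he).1 i hij
      · have h1 : H i e = fun _ => 0 := by
          funext x
          simp only [H, if_neg hij, if_neg he]
        rw [h1]
        exact ⟨fun x v => rfl, fun x => ⟨le_refl 0, zero_le_one⟩⟩
  have h1 := hu (tst m j H) ⟨m, hm, j, H, hH, rfl⟩
  rw [(hTb G X K k n0 hX).2.2.1 m j H u] at h1
  have hin : ∀ e : G, (if e ∈ B then τ else 0) ≤ av (fun x : Fin k → Fin K → X =>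
      u (e + frw m j x) * ∏ i ∈ univ.erase j, H i e x) := by
    intro e
    split_ifs with he
    · have h2 : (fun x : Fin k → Fin K → X => u (e + frw m j x) * ∏ i ∈ univ.erase j, H i e x) =
          fun x : Fin k → Fin K → X => u (e + frw m j x) * ∏ i ∈ univ.erase j, hh e i x := by
        funext x
        congr 1
        refine prod_congr rfl fun i hi => ?_
        simp only [H, if_neg (ne_of_mem_erase hi), if_pos he]
      rw [h2]
      exact (hhB e he).2.le
    · obtain ⟨i, hi⟩ : ∃ i : Fin k, i ≠ j := by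
        have : Nontrivial (Fin k) := Fin.nontrivial_iff_two_le.mpr hk
        exact exists_ne j
      have h2 : (fun x : Fin k → Fin K → X => u (e + frw m j x) * ∏ i ∈ univ.erase j, H i e x) =
          fun _ => 0 := by
        funext x
        rw [prod_eq_zero (mem_erase.mpr ⟨hi, mem_univ i⟩) (by
          simp only [H, if_neg hi, if_neg he]), mul_zero]
      rw [h2]
      unfold av
      simp
  have h2 : ∑ e : G, (if e ∈ B then τ else 0) = τ * (B.card : ℝ) := by
    rw [← sum_filter, filter_mem_eq_inter, univ_inter, sum_const, nsmul_eq_mul, mul_comm]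
  have h3 : τ * (B.card : ℝ) ≤ ε * (Fintype.card G : ℝ) := by
    rw [← h2]
    refine (sum_le_sum fun e _ => hin e).trans ?_
    have h4 : av (fun e : G => av (fun x : Fin k → Fin K → X =>
      u (e + frw m j x) * ∏ i ∈ univ.erase j, H i e x)) ≤ ε := h1
    rw [av, div_le_iff₀ hG] at h4
    exact h4
  rw [div_mul_eq_mul_div, le_div_iff₀ hτ, mul_comm]
  exact h3

theorem pCe (hTb : TbStmt) : CeStmt := by
  classical
  intro G _ _ X K k n0 ε τ f f' hX hk hτ hφ m hm j
  have hG : (0 : ℝ) < Fintype.card G := by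
    have : 0 < Fintype.card G := Fintype.card_pos_iff.mpr ⟨0⟩
    exact_mod_cast this
  have h1 := ce_one hTb G X K k n0 ε τ (fun x => f x - f' x) hX hk hτ
    (fun φ hφ' => (le_abs_self _).trans (hφ φ hφ')) m hm j
  have h2 := ce_one hTb G X K k n0 ε τ (fun x => f' x - f x) hX hk hτ
    (fun φ hφ' => by
      have h3 : av (fun x => (f' x - f x) * φ x) = - av (fun x => (f x - f' x) * φ x) := by
        unfold av
        rw [← neg_div, ← sum_neg_distrib]
        congr 1
        exact sum_congr rfl fun x _ => by ring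
      rw [h3]
      exact (neg_le_abs _).trans (hφ φ hφ')) m hm j
  have hsub : (univ.filter (fun e : G => ¬ Cut j τ (fun x : Fin k → Fin K → X =>
      f (e + frw m j x) - f' (e + frw m j x)))) ⊆
      (univ.filter (fun e : G => ∃ h : Fin k → (Fin k → Fin K → X) → ℝ, ceAdm j h ∧
      τ < av (fun x : Fin k → Fin K → X => (f (e + frw m j x) - f' (e + frw m j x)) *
        ∏ i ∈ univ.erase j, h i x))) ∪
      (univ.filter (fun e : G => ∃ h : Fin k → (Fin k → Fin K → X) → ℝ, ceAdm j h ∧
      τ < av (fun x : Fin k → Fin K → X => (f' (e + frw m j x) - f (e + frw m j x)) *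
        ∏ i ∈ univ.erase j, h i x))) := by
    intro e he
    have h3 := (mem_filter.mp he).2
    unfold Cut at h3
    push Not at h3
    obtain ⟨h, hh, hlt⟩ := h3
    rw [mem_union]
    rcases lt_abs.mp hlt with h4 | h4
    · exact Or.inl (mem_filter.mpr ⟨mem_univ _, h, hh, h4⟩)
    · refine Or.inr (mem_filter.mpr ⟨mem_univ _, h, hh, ?_⟩)
      have h5 : av (fun x : Fin k → Fin K → X => (f' (e + frw m j x) - f (e + frw m j x)) *
          ∏ i ∈ univ.erase j, h i x) = - av (fun x : Fin k → Fin K → X =>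
          (f (e + frw m j x) - f' (e + frw m j x)) * ∏ i ∈ univ.erase j, h i x) := by
        unfold av
        rw [← neg_div, ← sum_neg_distrib]
        congr 1
        exact sum_congr rfl fun x _ => by ring
      rw [h5]
      exact h4
  calc _ ≤ (((univ.filter (fun e : G => ∃ h : Fin k → (Fin k → Fin K → X) → ℝ, ceAdm j h ∧
      τ < av (fun x : Fin k → Fin K → X => (f (e + frw m j x) - f' (e + frw m j x)) *
        ∏ i ∈ univ.erase j, h i x))) ∪
      (univ.filter (fun e : G => ∃ h : Fin k → (Fin k → Fin K → X) → ℝ, ceAdm j h ∧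
      τ < av (fun x : Fin k → Fin K → X => (f' (e + frw m j x) - f (e + frw m j x)) *
        ∏ i ∈ univ.erase j, h i x)))).card : ℝ) := by exact_mod_cast card_le_card hsub
    _ ≤ ε / τ * (Fintype.card G : ℝ) + ε / τ * (Fintype.card G : ℝ) := by
        exact (ce_union _ _).trans (add_le_add h1 h2)
    _ = _ := by ring

end Pool.Agent.Lib.MP_9f2731_nt.QL.Rw
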