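import Pool.Agent.Lib.MP_9f2731_nt.QL.Rw.Spec
import Pool.Agent.Lib.MP_9f2731_nt.GP.Rel.Reg

/-!
MP_9f2731_nt, QL/Rw, module DmaA (helper3): abstract dense model theorem.
-/

namespace Pool.Agent.Lib.MP_9f2731_nt.QL.Rw

open Finset
open Pool.Agent.Lib.MP_9f2731_nt.GP
open Pool.Agent.Lib.MP_9f2731_nt.GP.Rel
open Pool.Agent.Lib.MP_9f2731_nt.QL

private theorem DmaA_av_add {α : Type} [Fintype α] (f g : α → ℝ) :
    av (fun x => f x + g x) = av f + av g := by
  unfold av
  rw [Finset.sum_add_distrib, add_div]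

private theorem DmaA_av_sum {α κ : Type} [Fintype α] (s : Finset κ) (f : κ → α → ℝ) :
    av (fun x => ∑ i ∈ s, f i x) = ∑ i ∈ s, av (f i) := by
  unfold av
  rw [Finset.sum_comm, Finset.sum_div]

private theorem DmaA_av_mul_left {α : Type} [Fintype α] (c : ℝ) (g : α → ℝ) :
    av (fun x => c * g x) = c * av g := by
  unfold av
  rw [← Finset.mul_sum, mul_div_assoc]

private theorem DmaA_av_const {α : Type} [Fintype α] [Nonempty α] (c : ℝ) :
    av (fun _ : α => c) = c := by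
  unfold av
  have h : (Fintype.card α : ℝ) ≠ 0 := by exact_mod_cast Fintype.card_ne_zero
  rw [Finset.sum_const, Finset.card_univ, nsmul_eq_mul, mul_div_assoc, mul_div_cancel₀]
  exact h

private theorem DmaA_av_mono {α : Type} [Fintype α] {f g : α → ℝ} (h : ∀ x, f x ≤ g x) :
    av f ≤ av g := by
  unfold av
  exact div_le_div_of_nonneg_right (Finset.sum_le_sum fun x _ => h x) (by positivity)

/-- the sequence of partial sums -/
private noncomputable def DmaASq {Ω : Type} (ph : (Ω → ℝ) → Ω → ℝ) (ss : (Ω → ℝ) → ℝ) :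
    ℕ → Ω → ℝ
  | 0 => fun _ => 0
  | t + 1 => fun x => DmaASq ph ss t x + ss (DmaASq ph ss t) * ph (DmaASq ph ss t) x

private theorem DmaASq_eq {Ω : Type} (ph : (Ω → ℝ) → Ω → ℝ) (ss : (Ω → ℝ) → ℝ) (t : ℕ) (x : Ω) :
    DmaASq ph ss t x = ∑ i ∈ range t, ss (DmaASq ph ss i) * ph (DmaASq ph ss i) x := by
  induction t with
  | zero => rfl
  | succ t ih =>
    rw [Finset.sum_range_succ, ← ih]
    rfl

theorem pDmaA (h3 : PolAStmt) : DmaAStmt := by
  classical
  intro ε₀ hε₀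
  -- reduction to ε ≤ 1
  obtain ⟨ε, hε, hε1, hεε⟩ : ∃ ε : ℝ, 0 < ε ∧ ε ≤ 1 ∧ ε ≤ ε₀ :=
    ⟨min ε₀ 1, lt_min hε₀ one_pos, min_le_right _ _, min_le_left _ _⟩
  set T : ℕ := ⌈4 / ε ^ 2⌉₊ with hT
  have hT1 : 4 / ε ^ 2 ≤ (T : ℝ) := Nat.le_ceil _
  have hT0 : (0 : ℝ) < T := lt_of_lt_of_le (by positivity) hT1
  have hTn : T ≠ 0 := by
    intro h
    rw [h, Nat.cast_zero] at hT0
    exact lt_irrefl _ hT0
  obtain ⟨n, C, hC, hPol⟩ := h3 T (ε * T / 24) (by positivity)
  set τ : ℝ := min 1 (ε * T / (8 * C)) with hτ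
  have hτ0 : 0 < τ := lt_min one_pos (by positivity)
  refine ⟨n, τ, hτ0, ?_⟩
  intro Ω _ _ Φ hΦ hΦ1 ν f hf hCut
  by_contra hno
  push Not at hno
  have step : ∀ S : Ω → ℝ, ∃ hs : (Ω → ℝ) × ℝ, hs.1 ∈ Φ ∧ |hs.2| = 1 ∧
      ε < hs.2 * av (fun x => (f x - max 0 (min 1 (ε / 2 * S x))) * hs.1 x) := by
    intro S
    obtain ⟨h, hh, h5⟩ := hno (fun x => max 0 (min 1 (ε / 2 * S x)))
      (fun x => ⟨le_max_left _ _, max_le zero_le_one (min_le_left _ _)⟩)
    have h7 : ε < |av (fun x => (f x - max 0 (min 1 (ε / 2 * S x))) * h x)| :=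
      lt_of_le_of_lt hεε h5
    rcases le_total 0 (av (fun x => (f x - max 0 (min 1 (ε / 2 * S x))) * h x)) with h8 | h8
    · refine ⟨(h, 1), hh, abs_one, ?_⟩
      rw [one_mul]
      rwa [abs_of_nonneg h8] at h7
    · refine ⟨(h, -1), hh, by simp, ?_⟩
      rw [neg_one_mul]
      rwa [abs_of_nonpos h8] at h7
  choose hs hs1 hs2 hs3 using step
  set hh : (Ω → ℝ) → Ω → ℝ := fun S => (hs S).1 with hhh
  set ss : (Ω → ℝ) → ℝ := fun S => (hs S).2 with hss
  set φ : ℕ → Ω → ℝ := fun t => hh (DmaASq hh ss t) with hhdef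
  set s : ℕ → ℝ := fun t => ss (DmaASq hh ss t) with hsdef
  have hadm : ∀ t, φ t ∈ Φ := fun t => hs1 _
  have hsabs : ∀ t, |s t| = 1 := fun t => hs2 _
  have hS : ∀ t x, DmaASq hh ss t x = ∑ i ∈ range t, s i * φ i x :=
    fun t x => DmaASq_eq hh ss t x
  have hbig : ∀ t, ε < s t * av (fun x =>
      (f x - max 0 (min 1 (ε / 2 * ∑ i ∈ range t, s i * φ i x))) * φ t x) := by
    intro t
    have h4 := hs3 (DmaASq hh ss t)
    simp only [hS] at h4
    exact h4
  have hphi : ∀ t x, 0 ≤ φ t x ∧ φ t x ≤ 1 := fun t x => hΦ (φ t) (hadm t) x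
  clear_value s φ
  -- sum over t
  have hsum : ε * T < av (fun x => ∑ t ∈ range T,
      (f x - max 0 (min 1 (ε / 2 * ∑ i ∈ range t, s i * φ i x))) *
        (s t * φ t x)) := by
    rw [DmaA_av_sum]
    have e1 : ∀ t, av (fun x =>
        (f x - max 0 (min 1 (ε / 2 * ∑ i ∈ range t, s i * φ i x))) *
          (s t * φ t x)) = s t * av (fun x =>
        (f x - max 0 (min 1 (ε / 2 * ∑ i ∈ range t, s i * φ i x))) * φ t x) := by
      intro t
      rw [← DmaA_av_mul_left]
      congr 1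
      funext x
      ring
    simp only [e1]
    calc ε * T = ∑ t ∈ range T, ε := by
          rw [Finset.sum_const, Finset.card_range, nsmul_eq_mul, mul_comm]
      _ < _ := Finset.sum_lt_sum_of_nonempty (Finset.nonempty_range_iff.2 hTn)
          fun t _ => hbig t
  -- pointwise bound
  have hpt : ∀ x, ∑ t ∈ range T,
      (f x - max 0 (min 1 (ε / 2 * ∑ i ∈ range t, s i * φ i x))) * (s t * φ t x) ≤
      (ν x - 1) * max (∑ t ∈ range T, s t * φ t x) 0 + ε * T / 2 := by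
    intro x
    have h5 := pReg T (fun t => s t * φ t x) (ε / 2) (by positivity) (fun t => by
      show |s t * φ t x| ≤ 1
      rw [abs_mul, hsabs t, one_mul, abs_of_nonneg (hphi t x).1]
      exact (hphi t x).2)
    have e2 : ∑ t ∈ range T,
        (f x - max 0 (min 1 (ε / 2 * ∑ i ∈ range t, s i * φ i x))) *
          (s t * φ t x) =
        f x * (∑ t ∈ range T, s t * φ t x) -
          ∑ t ∈ range T, max 0 (min 1 (ε / 2 * ∑ i ∈ range t, s i * φ i x)) *
            (s t * φ t x) := by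
      rw [Finset.mul_sum, ← Finset.sum_sub_distrib]
      refine Finset.sum_congr rfl fun t _ => ?_
      ring
    rw [e2]
    have h6 : f x * (∑ t ∈ range T, s t * φ t x) ≤
        ν x * max (∑ t ∈ range T, s t * φ t x) 0 := by
      calc f x * (∑ t ∈ range T, s t * φ t x)
          ≤ f x * max (∑ t ∈ range T, s t * φ t x) 0 :=
            mul_le_mul_of_nonneg_left (le_max_left _ _) (hf x).1
        _ ≤ ν x * max (∑ t ∈ range T, s t * φ t x) 0 :=
            mul_le_mul_of_nonneg_right (hf x).2 (le_max_right _ _)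
    have h7 : 1 / (2 * (ε / 2)) ≤ ε * T / 4 := by
      have h8 : 4 ≤ T * ε ^ 2 := by
        rwa [div_le_iff₀ (by positivity)] at hT1
      rw [show 2 * (ε / 2) = ε by ring, div_le_iff₀ hε]
      nlinarith
    nlinarith [h5, h6, h7]
  -- the mean of ν
  have hu : |av (fun x => ν x - 1)| ≤ τ := by
    have h5 := hCut [] (Nat.zero_le _) (fun φ hφ => by simp at hφ)
    simpa using h5
  have hτ1 : τ ≤ 1 := min_le_left _ _
  have hν0 : ∀ x, 0 ≤ ν x := fun x => (hf x).1.trans (hf x).2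
  have habs : av (fun x => |ν x - 1|) ≤ 3 := by
    have h6 : av (fun x => |ν x - 1|) ≤ av (fun x => (ν x - 1) + 2) := by
      refine DmaA_av_mono fun x => ?_
      rw [abs_le]
      constructor <;> linarith [hν0 x]
    rw [DmaA_av_add (fun x => ν x - 1) (fun _ => 2), DmaA_av_const] at h6
    have h7 := (abs_le.1 hu).2
    linarith
  have hpol := hPol Ω Φ τ (fun x => ν x - 1) hτ0.le hΦ hCut φ s hadm hsabs
  have h8 : C * τ ≤ ε * T / 8 := by
    have h9 : τ ≤ ε * T / (8 * C) := min_le_right _ _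
    calc C * τ ≤ C * (ε * T / (8 * C)) := mul_le_mul_of_nonneg_left h9 hC.le
      _ = ε * T / 8 := by
          field_simp
  have h9 : ε * T / 24 * av (fun x => |ν x - 1|) ≤ ε * T / 24 * 3 :=
    mul_le_mul_of_nonneg_left habs (by positivity)
  have h10 : ε * T < av (fun x => (ν x - 1) * max (∑ t ∈ range T, s t * φ t x) 0) +
      ε * T / 2 := by
    refine lt_of_lt_of_le hsum ((DmaA_av_mono hpt).trans ?_)
    rw [DmaA_av_add (fun x => (ν x - 1) * max (∑ t ∈ range T, s t * φ t x) 0)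
      (fun _ => ε * T / 2), DmaA_av_const]
  have h11 := (abs_le.1 hpol).2
  have h12 : 0 < ε * T := mul_pos hε hT0
  linarith

end Pool.Agent.Lib.MP_9f2731_nt.QL.Rw
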