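import Pool.Agent.Lib.MP_9f2731_nt.QL.Rw.Spec

/-!
MP_9f2731_nt, QL/Rw, module Dnw (helper19): dense theorem, the difference is a sum of elements of X.
-/

namespace Pool.Agent.Lib.MP_9f2731_nt.QL.Rw

open Finset
open Pool.Agent.Lib.MP_9f2731_nt.GP
open Pool.Agent.Lib.MP_9f2731_nt.GP.Rel
open Pool.Agent.Lib.MP_9f2731_nt.QL

private theorem Dnw_add {α : Type} [Fintype α] (f g : α → ℝ) :
    av (fun x => f x + g x) = av f + av g := by
  unfold av
  rw [sum_add_distrib, add_div]

private theorem Dnw_sum {α κ : Type} [Fintype α] (s : Finset κ) (f : κ → α → ℝ) :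
    av (fun x => ∑ i ∈ s, f i x) = ∑ i ∈ s, av (f i) := by
  unfold av
  rw [sum_comm, sum_div]

private theorem Dnw_mul {α : Type} [Fintype α] (c : ℝ) (g : α → ℝ) :
    av (fun x => c * g x) = c * av g := by
  unfold av
  rw [← mul_sum, mul_div_assoc]

private theorem Dnw_const {α : Type} [Fintype α] [Nonempty α] (c : ℝ) :
    av (fun _ : α => c) = c := by
  unfold av
  have h : (Fintype.card α : ℝ) ≠ 0 := by
    have := Fintype.card_pos (α := α)
    positivity
  rw [sum_const, card_univ, nsmul_eq_mul, mul_div_cancel_left₀ _ h]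

private theorem Dnw_mono {α : Type} [Fintype α] {f g : α → ℝ} (h : ∀ x, f x ≤ g x) :
    av f ≤ av g := by
  unfold av
  exact div_le_div_of_nonneg_right (sum_le_sum fun x _ => h x) (Nat.cast_nonneg _)

private theorem Dnw_shift {G : Type} [AddCommGroup G] [Fintype G] (c : G) (F : G → ℝ) :
    av (fun e => F (e + c)) = av F := by
  unfold av
  rw [Fintype.sum_equiv (Equiv.addRight c) (fun e => F (e + c)) F fun e => rfl]

/-- the points of a line -/
private theorem Dnw_line {G : Type} [AddCommGroup G] {k n : ℕ} (w : Fin n → Option (Fin k))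
    (i : Fin k) (σ : Fin n → G) :
    ∑ t, ((lineMap w i t : Fin k) : ℕ) • σ t =
      (∑ t, ((w t).elim 0 (fun a => (a : ℕ))) • σ t) +
        (i : ℕ) • ∑ t, (if w t = none then σ t else 0) := by
  rw [smul_sum, ← sum_add_distrib]
  refine sum_congr rfl fun t _ => ?_
  unfold lineMap
  cases w t with
  | none => simp
  | some a => simp

/-- the enumeration of the entries at the wildcards -/
private theorem Dnw_enum {k n : ℕ} (w : Fin n → Option (Fin k)) (hw : ∃ t, w t = none) :
    ∃ m : ℕ, m < n ∧ ∃ e : Fin (k * (m + 1)) → Fin n × Fin k, Function.Injective e ∧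
      ∀ (G : Type) [AddCommGroup G] (v : Fin n × Fin k → G),
        ∑ t, (if w t = none then ∑ c, v (t, c) else 0) = ∑ i, v (e i) := by
  classical
  obtain ⟨s, hs⟩ : ∃ s : ℕ, s = (univ.filter fun t => w t = none).card := ⟨_, rfl⟩
  have hs1 : 1 ≤ s := by
    obtain ⟨t, ht⟩ := hw
    rw [hs]
    exact card_pos.2 ⟨t, by simp [ht]⟩
  have hsn : s ≤ n := by
    rw [hs]
    refine (card_le_univ _).trans ?_
    rw [Fintype.card_fin]
  have hcard : Fintype.card {p : Fin n × Fin k // w p.1 = none} = k * (s - 1 + 1) := by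
    rw [Fintype.card_subtype, Nat.sub_add_cancel hs1, hs]
    have h1 : (univ.filter fun p : Fin n × Fin k => w p.1 = none) =
        (univ.filter fun t => w t = none) ×ˢ (univ : Finset (Fin k)) := by
      ext p
      simp
    rw [h1, card_product, card_univ, Fintype.card_fin, mul_comm]
  let E : Fin (k * (s - 1 + 1)) ≃ {p : Fin n × Fin k // w p.1 = none} :=
    (Fintype.equivFinOfCardEq hcard).symm
  refine ⟨s - 1, by omega, fun i => (E i).1, fun i j hij => E.injective (Subtype.ext hij), ?_⟩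
  intro G _ v
  have h1 : ∑ i, v (E i).1 = ∑ p : {p : Fin n × Fin k // w p.1 = none}, v p.1 :=
    Fintype.sum_equiv E _ _ fun i => rfl
  have h2 : ∑ p : {p : Fin n × Fin k // w p.1 = none}, v p.1 =
      ∑ p ∈ univ.filter (fun p : Fin n × Fin k => w p.1 = none), v p :=
    (sum_subtype _ (fun p => by simp) v).symm
  rw [h1, h2, sum_filter, Fintype.sum_prod_type]
  refine sum_congr rfl fun t _ => ?_
  by_cases ht : w t = none
  · simp [ht]
  · simp [ht]

open Classical in
/-- the indicator of the set where f is large -/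
private noncomputable def Dnw_a {G : Type} (δ : ℝ) (f : G → ℝ) (x : G) : ℝ :=
  if δ / 2 ≤ f x then 1 else 0

private theorem Dnw_a01 {G : Type} (δ : ℝ) (f : G → ℝ) (x : G) :
    0 ≤ Dnw_a δ f x ∧ Dnw_a δ f x ≤ 1 := by
  unfold Dnw_a
  split_ifs <;> norm_num

open Classical in
/-- the contribution of the word w -/
private noncomputable def Dnw_T {G : Type} [AddCommGroup G] {k n : ℕ} (a : G → ℝ)
    (σ : Fin n → G) (w : Fin n → Option (Fin k)) (e : G) : ℝ :=
  if ∃ t, w t = none then ∏ i, a (e + ∑ t, ((lineMap w i t : Fin k) : ℕ) • σ t) else 0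

private theorem Dnw_point {G : Type} [AddCommGroup G] {k n : ℕ} {δ : ℝ} (hδ : 0 < δ)
    (hn : ∀ A : Finset (Fin n → Fin k), δ / 4 * (k : ℝ) ^ n ≤ (A.card : ℝ) →
      ∃ w : Fin n → Option (Fin k), (∃ t, w t = none) ∧ ∀ i, lineMap w i ∈ A)
    (f : G → ℝ) (σ : Fin n → G) (e : G) :
    ∑ w : Fin n → Fin k, Dnw_a δ f (e + ∑ t, ((w t : Fin k) : ℕ) • σ t) ≤
      δ / 4 * (k : ℝ) ^ n +
        (k : ℝ) ^ n * ∑ w : Fin n → Option (Fin k), Dnw_T (Dnw_a δ f) σ w e := by
  classical
  have hT0 : ∀ w : Fin n → Option (Fin k), 0 ≤ Dnw_T (Dnw_a δ f) σ w e := by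
    intro w
    unfold Dnw_T
    split_ifs
    · exact prod_nonneg fun i _ => (Dnw_a01 _ _ _).1
    · exact le_rfl
  have hkn : (0 : ℝ) ≤ (k : ℝ) ^ n := by positivity
  obtain ⟨A, hA⟩ : ∃ A : Finset (Fin n → Fin k),
      A = univ.filter fun w => δ / 2 ≤ f (e + ∑ t, ((w t : Fin k) : ℕ) • σ t) := ⟨_, rfl⟩
  have hsum : ∑ w : Fin n → Fin k, Dnw_a δ f (e + ∑ t, ((w t : Fin k) : ℕ) • σ t) =
      (A.card : ℝ) := by
    rw [hA]
    unfold Dnw_a
    simp
  rw [hsum]
  have hTs : 0 ≤ ∑ w : Fin n → Option (Fin k), Dnw_T (Dnw_a δ f) σ w e :=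
    sum_nonneg fun w _ => hT0 w
  by_cases hc : δ / 4 * (k : ℝ) ^ n ≤ (A.card : ℝ)
  · obtain ⟨w, hw1, hw2⟩ := hn A hc
    have h1 : Dnw_T (Dnw_a δ f) σ w e = 1 := by
      unfold Dnw_T
      rw [if_pos hw1]
      refine prod_eq_one fun i _ => ?_
      have h2 := hw2 i
      rw [hA, mem_filter] at h2
      unfold Dnw_a
      rw [if_pos h2.2]
    have h3 : 1 ≤ ∑ w : Fin n → Option (Fin k), Dnw_T (Dnw_a δ f) σ w e := by
      rw [← h1]
      exact single_le_sum (fun w _ => hT0 w) (mem_univ w)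
    have h4 : (A.card : ℝ) ≤ (k : ℝ) ^ n := by
      have h5 : A.card ≤ k ^ n := by
        refine (card_le_univ _).trans ?_
        rw [Fintype.card_fun, Fintype.card_fin, Fintype.card_fin]
      exact_mod_cast h5
    have h6 : 0 ≤ δ / 4 * (k : ℝ) ^ n := by positivity
    nlinarith [mul_le_mul_of_nonneg_left h3 hkn]
  · have h1 := not_le.mp hc
    have h2 := mul_nonneg hkn hTs
    linarith

theorem pDnw (h : DhjStmt) (hLaw : LawStmt) (hApl : AplStmt) : DnwStmt := by
  classical
  intro k δ hk hδ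
  obtain ⟨n, hn⟩ := h k (δ / 4) (by positivity)
  have hkpos : (0 : ℝ) < k := by exact_mod_cast hk
  refine ⟨(δ / 2) ^ k * ((δ / 4) / ((k : ℝ) + 1) ^ n), n + 1, by positivity, by omega, ?_⟩
  intro G _ _ X hX f hf hsum
  have hGne : Nonempty G := ⟨0⟩
  have hXne : Nonempty X := hX.to_subtype
  have hg0 : (0 : ℝ) < Fintype.card G := by
    exact_mod_cast Fintype.card_pos (α := G)
  obtain ⟨a, ha⟩ : ∃ a : G → ℝ, a = Dnw_a δ f := ⟨_, rfl⟩
  have ha01 : ∀ x, 0 ≤ a x ∧ a x ≤ 1 := fun x => by rw [ha]; exact Dnw_a01 δ f x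
  have hfa : ∀ x, δ / 2 * a x ≤ f x := by
    intro x
    rw [ha]
    unfold Dnw_a
    split_ifs with hx
    · linarith
    · linarith [(hf x).1]
  have hava : δ / 2 ≤ av a := by
    have h1 : δ ≤ av f := by
      unfold av
      rw [le_div_iff₀ hg0]
      exact hsum
    have h2 : av f ≤ av (fun x => a x + δ / 2) := by
      refine Dnw_mono fun x => ?_
      rw [ha]
      unfold Dnw_a
      split_ifs with hx
      · linarith [(hf x).2]
      · linarith [not_le.mp hx]
    rw [Dnw_add, Dnw_const] at h2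
    linarith
  -- the mean over the tuples
  have hstep : δ / 4 ≤ ∑ w : Fin n → Option (Fin k), av (fun v : Fin n × Fin k → X =>
      av (fun e : G => Dnw_T a (fun t => ∑ c, ((v (t, c) : X) : G)) w e)) := by
    have h1 : av (fun v : Fin n × Fin k → X => av (fun e : G => ∑ w : Fin n → Fin k,
        a (e + ∑ t, ((w t : Fin k) : ℕ) • ∑ c, ((v (t, c) : X) : G)))) =
        (k : ℝ) ^ n * av a := by
      simp only [Dnw_sum, Dnw_shift, sum_const, card_univ, Fintype.card_fun, Fintype.card_fin,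
        Dnw_const, nsmul_eq_mul]
      push_cast
      rfl
    have h2 : av (fun v : Fin n × Fin k → X => av (fun e : G => ∑ w : Fin n → Fin k,
        a (e + ∑ t, ((w t : Fin k) : ℕ) • ∑ c, ((v (t, c) : X) : G)))) ≤
        av (fun v : Fin n × Fin k → X => av (fun e : G => δ / 4 * (k : ℝ) ^ n +
          (k : ℝ) ^ n * ∑ w : Fin n → Option (Fin k),
            Dnw_T a (fun t => ∑ c, ((v (t, c) : X) : G)) w e)) := by
      refine Dnw_mono fun v => Dnw_mono fun e => ?_
      rw [ha]
      exact Dnw_point hδ hn f _ e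
    have h3 : av (fun v : Fin n × Fin k → X => av (fun e : G => δ / 4 * (k : ℝ) ^ n +
          (k : ℝ) ^ n * ∑ w : Fin n → Option (Fin k),
            Dnw_T a (fun t => ∑ c, ((v (t, c) : X) : G)) w e)) =
        δ / 4 * (k : ℝ) ^ n + (k : ℝ) ^ n * ∑ w : Fin n → Option (Fin k),
          av (fun v : Fin n × Fin k → X => av (fun e : G =>
            Dnw_T a (fun t => ∑ c, ((v (t, c) : X) : G)) w e)) := by
      simp only [Dnw_add, Dnw_const, Dnw_mul, Dnw_sum]
    rw [h1, h3] at h2
    have hkn : (0 : ℝ) < (k : ℝ) ^ n := by positivity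
    have h4 := mul_le_mul_of_nonneg_left hava hkn.le
    have h5 : (k : ℝ) ^ n * (δ / 4) ≤ (k : ℝ) ^ n * ∑ w : Fin n → Option (Fin k),
          av (fun v : Fin n × Fin k → X => av (fun e : G =>
            Dnw_T a (fun t => ∑ c, ((v (t, c) : X) : G)) w e)) := by linarith
    exact le_of_mul_le_mul_left h5 hkn
  -- one word
  obtain ⟨w, hw⟩ : ∃ w : Fin n → Option (Fin k), (δ / 4) / ((k : ℝ) + 1) ^ n ≤
      av (fun v : Fin n × Fin k → X =>
        av (fun e : G => Dnw_T a (fun t => ∑ c, ((v (t, c) : X) : G)) w e)) := by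
    by_contra hcon
    push Not at hcon
    have h1 : ∑ w : Fin n → Option (Fin k), av (fun v : Fin n × Fin k → X =>
        av (fun e : G => Dnw_T a (fun t => ∑ c, ((v (t, c) : X) : G)) w e)) <
        ∑ _w : Fin n → Option (Fin k), (δ / 4) / ((k : ℝ) + 1) ^ n :=
      sum_lt_sum_of_nonempty ⟨fun _ => none, mem_univ _⟩ fun w _ => hcon w
    rw [sum_const, card_univ, nsmul_eq_mul, Fintype.card_fun, Fintype.card_option,
      Fintype.card_fin, Fintype.card_fin] at h1
    push_cast at h1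
    rw [mul_div_cancel₀ _ (by positivity : ((k : ℝ) + 1) ^ n ≠ 0)] at h1
    linarith
  have hwn : ∃ t, w t = none := by
    by_contra hno
    have h1 : ∀ (σ : Fin n → G) (e : G), Dnw_T a σ w e = 0 := by
      intro σ e
      unfold Dnw_T
      rw [if_neg hno]
    simp only [h1, Dnw_const] at hw
    have h2 : 0 < (δ / 4) / ((k : ℝ) + 1) ^ n := by positivity
    linarith
  obtain ⟨m, hmn, E, hE, hEsum⟩ := Dnw_enum w hwn
  refine ⟨m, by omega, ?_⟩
  have hq : av (fun v : Fin n × Fin k → X =>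
      av (fun e : G => Dnw_T a (fun t => ∑ c, ((v (t, c) : X) : G)) w e)) =
      av (fun x : Fin (k * (m + 1)) → X => av (fun e : G =>
        ∏ i : Fin k, a (e + (i : ℕ) • ∑ t, ((x t : X) : G)))) := by
    rw [← hLaw.1 (Fin (k * (m + 1))) (Fin n × Fin k) G X E hX hE
      (fun d => av (fun e : G => ∏ i : Fin k, a (e + (i : ℕ) • d)))]
    congr 1
    funext v
    have h1 : ∀ e : G, Dnw_T a (fun t => ∑ c, ((v (t, c) : X) : G)) w e =
        ∏ i : Fin k, a (e + (∑ t, ((w t).elim 0 (fun a => (a : ℕ))) •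
          ∑ c, ((v (t, c) : X) : G)) + (i : ℕ) • ∑ j, ((v (E j) : X) : G)) := by
      intro e
      unfold Dnw_T
      rw [if_pos hwn]
      refine prod_congr rfl fun i _ => ?_
      rw [Dnw_line, hEsum G (fun p => ((v p : X) : G)), add_assoc]
    simp only [h1]
    exact Dnw_shift _ (fun e => ∏ i : Fin k, a (e + (i : ℕ) • ∑ j, ((v (E j) : X) : G)))
  rw [hq, ← hApl G X k m (k * (n + 1) + 1) hX hk (by
    have := Nat.mul_le_mul_left k (show m ≤ n + 1 by omega)
    omega) a] at hw
  refine (mul_le_mul_of_nonneg_left hw (by positivity)).trans ?_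
  rw [← Dnw_mul]
  refine Dnw_mono fun e => ?_
  rw [← Dnw_mul]
  refine Dnw_mono fun x => ?_
  calc (δ / 2) ^ k * ∏ j : Fin k, a (e + frw m j x) =
        ∏ j : Fin k, (δ / 2 * a (e + frw m j x)) := by
        rw [prod_mul_distrib, prod_const, card_univ, Fintype.card_fin]
    _ ≤ ∏ j : Fin k, f (e + frw m j x) :=
        prod_le_prod (fun j _ => mul_nonneg (by positivity) (ha01 _).1) fun j _ => hfa _

end Pool.Agent.Lib.MP_9f2731_nt.QL.Rw
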