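import Pool.Agent.Lib.MP_9f2731_nt.QL.Rw.Spec

/-!
MP_9f2731_nt, QL/Rw, module Fw (helper19): the relative theorem with two scales.
-/

namespace Pool.Agent.Lib.MP_9f2731_nt.QL.Rw

open Finset
open Pool.Agent.Lib.MP_9f2731_nt.GP
open Pool.Agent.Lib.MP_9f2731_nt.GP.Rel
open Pool.Agent.Lib.MP_9f2731_nt.QL

private theorem Fw_add {α : Type} [Fintype α] (f g : α → ℝ) :
    av (fun x => f x + g x) = av f + av g := by
  unfold av
  rw [sum_add_distrib, add_div]

private theorem Fw_sub {α : Type} [Fintype α] (f g : α → ℝ) :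
    av (fun x => f x - g x) = av f - av g := by
  unfold av
  rw [sum_sub_distrib, sub_div]

private theorem Fw_const {α : Type} [Fintype α] [Nonempty α] (c : ℝ) :
    av (fun _ : α => c) = c := by
  unfold av
  have h : (Fintype.card α : ℝ) ≠ 0 := by
    have := Fintype.card_pos (α := α)
    positivity
  rw [sum_const, card_univ, nsmul_eq_mul, mul_div_cancel_left₀ _ h]

private theorem Fw_mono {α : Type} [Fintype α] {f g : α → ℝ} (h : ∀ x, f x ≤ g x) :
    av f ≤ av g := by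
  unfold av
  exact div_le_div_of_nonneg_right (sum_le_sum fun x _ => h x) (Nat.cast_nonneg _)

/-- the comparison of the two means -/
private theorem Fw_cmp {G : Type} [Fintype G] [Nonempty G] {c0 : ℝ} (hc0 : 0 < c0)
    (A A' : G → ℝ) (Z : Finset G) (hA : ∀ e, 0 ≤ A e) (hA' : ∀ e, A' e ≤ 1)
    (hZ : ∀ e, e ∉ Z → A' e ≤ A e + c0 / 4) (hZc : (Z.card : ℝ) ≤ c0 / 8 * Fintype.card G)
    (h0 : c0 ≤ av A') : c0 / 4 ≤ av A := by
  classical
  have hg : (0 : ℝ) < Fintype.card G := by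
    exact_mod_cast Fintype.card_pos (α := G)
  have h1 : av A' ≤ av (fun e => A e + (c0 / 4 + if e ∈ Z then 1 else 0)) := by
    refine Fw_mono fun e => ?_
    by_cases he : e ∈ Z
    · rw [if_pos he]
      linarith [hA e, hA' e]
    · rw [if_neg he, add_zero]
      exact hZ e he
  rw [Fw_add, Fw_add, Fw_const] at h1
  have h2 : av (fun e => if e ∈ Z then (1 : ℝ) else 0) ≤ c0 / 8 := by
    unfold av
    rw [div_le_iff₀ hg]
    refine le_trans (le_of_eq ?_) hZc
    simp
  linarith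

theorem pFw (hCl : GP.Rel.ClStmt) (hDma : DmaAStmt) (hPd : PdStmt) (hDnw : DnwStmt)
    (hTb : TbStmt) (hCe : CeStmt) (hHe : HeStmt) : FwStmt := by
  classical
  intro k δ hk hδ
  have hk1 : 1 ≤ k := by omega
  have hk0 : (0 : ℝ) < k := by exact_mod_cast hk1
  obtain ⟨c1, n0, hc1, hn0, hD⟩ := hDnw k (δ / 2) hk1 (by positivity)
  obtain ⟨c0, hc0def⟩ : ∃ c0 : ℝ, c0 = min c1 1 := ⟨_, rfl⟩
  have hc0 : 0 < c0 := by rw [hc0def]; exact lt_min hc1 one_pos
  have hc01 : c0 ≤ c1 := by rw [hc0def]; exact min_le_left _ _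
  obtain ⟨η1, τ1, hη1, hτ1, hC⟩ := hCl k (c0 / 4) (by positivity)
  obtain ⟨ε, hεdef⟩ : ∃ ε : ℝ, ε = min (δ / 2) (τ1 * c0 / (32 * k)) := ⟨_, rfl⟩
  have hε : 0 < ε := by rw [hεdef]; exact lt_min (by positivity) (by positivity)
  have hε1 : ε ≤ δ / 2 := by rw [hεdef]; exact min_le_left _ _
  have hε2 : ε ≤ τ1 * c0 / (32 * k) := by rw [hεdef]; exact min_le_right _ _
  obtain ⟨n, τ, hτ, hM⟩ := hDma ε hε
  obtain ⟨η2, θ, hη2, hθ, hP⟩ := hPd k n τ hτ
  obtain ⟨η, hηdef⟩ : ∃ η : ℝ, η = min η2 (η1 * c0 / (16 * 2 ^ (k * 2 ^ k))) := ⟨_, rfl⟩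
  have hη : 0 < η := by rw [hηdef]; exact lt_min hη2 (by positivity)
  have hηa : η ≤ η2 := by rw [hηdef]; exact min_le_left _ _
  have hηb : η ≤ η1 * c0 / (16 * 2 ^ (k * 2 ^ k)) := by rw [hηdef]; exact min_le_right _ _
  refine ⟨c0 / 4, η, θ, n0, by positivity, hη, hθ, ?_⟩
  intro G _ _ _ X Y hX hY hShf ν f hf hN hW hsum
  have hGne : Nonempty G := ⟨0⟩
  have hXne : Nonempty X := hX.to_subtype
  have hg : (0 : ℝ) < Fintype.card G := by
    exact_mod_cast Fintype.card_pos (α := G)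
  have hν : ∀ x, 0 ≤ ν x := fun x => (hf x).1.trans (hf x).2
  obtain ⟨t1, t2, -, t4⟩ := hTb G X (k * n0 + 1) k n0 hX
  have hone := t2 hn0 hk1
  have hN2 : NLF k k.factorial η2 Y ν := fun A => (hN A).trans hηa
  obtain ⟨f', hf', hff'⟩ := hM G (TC k (k * n0 + 1) n0 X) t1 hone ν f hf
    (fun L hL1 hL2 => hP G X Y (k * n0 + 1) n0 ν (by omega) hX hY hν hShf hN2 L hL1 hL2)
  -- the mean of f'
  have hsum' : δ / 2 * (Fintype.card G : ℝ) ≤ ∑ x, f' x := by
    have h1 := hff' _ hone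
    simp only [mul_one] at h1
    rw [Fw_sub] at h1
    have h2 : δ ≤ av f := by
      unfold av
      rw [le_div_iff₀ hg]
      exact hsum
    have h3 : δ / 2 ≤ av f' := by linarith [(abs_le.mp h1).2]
    unfold av at h3
    rwa [le_div_iff₀ hg] at h3
  obtain ⟨m, hm, hcm⟩ := hD G X hX f' hf' hsum'
  refine ⟨m, hm, ?_⟩
  -- the bad base points
  have hce : ∀ j : Fin k, ((univ.filter (fun e : G => ¬ Cut j τ1
      (fun x : Fin k → Fin (k * n0 + 1) → X =>
        f (e + frw m j x) - f' (e + frw m j x)))).card : ℝ) ≤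
      c0 / (16 * k) * (Fintype.card G : ℝ) := by
    intro j
    have h1 := hCe G X (k * n0 + 1) k n0 ε τ1 f f' hX hk hτ1 hff' m hm j
    refine (le_of_eq ?_).trans (h1.trans (mul_le_mul_of_nonneg_right ?_ hg.le))
    · congr
    · rw [div_le_iff₀ hτ1]
      have h2 : c0 / (16 * k) * τ1 = 2 * (τ1 * c0 / (32 * k)) := by
        field_simp
        ring
      rw [h2]
      linarith
  have hhe : ((univ.filter (fun e : G => ¬ HLFC η1 (fun (j : Fin k)
      (x : Fin k → Fin (k * n0 + 1) → X) => ν (e + frw m j x)))).card : ℝ) ≤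
      c0 / 16 * (Fintype.card G : ℝ) := by
    have h1 := hHe G X k n0 η η1 ν hη1 hη.le hW m hm
    refine (le_of_eq ?_).trans (h1.trans (mul_le_mul_of_nonneg_right ?_ hg.le))
    · congr
    · rw [← mul_div_assoc, div_le_iff₀ hη1]
      have h2 : (2 : ℝ) ^ (k * 2 ^ k) * (η1 * c0 / (16 * 2 ^ (k * 2 ^ k))) = c0 / 16 * η1 := by
        field_simp
      rw [← h2]
      exact mul_le_mul_of_nonneg_left hηb (by positivity)
  obtain ⟨Z, hZ⟩ : ∃ Z : Finset G, Z = (univ.filter (fun e : G => ¬ HLFC η1 (fun (j : Fin k)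
      (x : Fin k → Fin (k * n0 + 1) → X) => ν (e + frw m j x)))) ∪
      univ.biUnion fun j : Fin k => univ.filter (fun e : G => ¬ Cut j τ1
        (fun x : Fin k → Fin (k * n0 + 1) → X =>
          f (e + frw m j x) - f' (e + frw m j x))) := ⟨_, rfl⟩
  have hZc : (Z.card : ℝ) ≤ c0 / 8 * Fintype.card G := by
    have h1 : (Z.card : ℝ) ≤ ((univ.filter (fun e : G => ¬ HLFC η1 (fun (j : Fin k)
        (x : Fin k → Fin (k * n0 + 1) → X) => ν (e + frw m j x)))).card : ℝ) +
        ∑ j : Fin k, ((univ.filter (fun e : G => ¬ Cut j τ1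
          (fun x : Fin k → Fin (k * n0 + 1) → X =>
            f (e + frw m j x) - f' (e + frw m j x)))).card : ℝ) := by
      rw [hZ]
      have h2 := (card_union_le (univ.filter (fun e : G => ¬ HLFC η1 (fun (j : Fin k)
        (x : Fin k → Fin (k * n0 + 1) → X) => ν (e + frw m j x))))
        (univ.biUnion fun j : Fin k => univ.filter (fun e : G => ¬ Cut j τ1
          (fun x : Fin k → Fin (k * n0 + 1) → X =>
            f (e + frw m j x) - f' (e + frw m j x)))))
      have h3 := h2.trans (Nat.add_le_add_left card_biUnion_le _)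
      exact_mod_cast h3
    have h4 : ∑ j : Fin k, ((univ.filter (fun e : G => ¬ Cut j τ1
          (fun x : Fin k → Fin (k * n0 + 1) → X =>
            f (e + frw m j x) - f' (e + frw m j x)))).card : ℝ) ≤
        c0 / 16 * (Fintype.card G : ℝ) := by
      refine (sum_le_sum fun j _ => hce j).trans (le_of_eq ?_)
      rw [sum_const, card_univ, Fintype.card_fin, nsmul_eq_mul]
      field_simp
    linarith
  have hA : ∀ e : G, 0 ≤ av (fun x : Fin k → Fin (k * n0 + 1) → X =>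
      ∏ j : Fin k, f (e + frw m j x)) := by
    intro e
    rw [← Fw_const (α := Fin k → Fin (k * n0 + 1) → X) 0]
    exact Fw_mono fun x => prod_nonneg fun j _ => (hf _).1
  have hA' : ∀ e : G, av (fun x : Fin k → Fin (k * n0 + 1) → X =>
      ∏ j : Fin k, f' (e + frw m j x)) ≤ 1 := by
    intro e
    refine (Fw_mono fun x => prod_le_one (fun j _ => (hf' _).1) fun j _ => (hf' _).2).trans
      (le_of_eq (Fw_const 1))
  refine Fw_cmp hc0 _ _ Z hA hA' (fun e he => ?_) hZc (hc01.trans hcm)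
  rw [hZ, notMem_union] at he
  obtain ⟨he1, he2⟩ := he
  have hH : HLFC η1 (fun (j : Fin k) (x : Fin k → Fin (k * n0 + 1) → X) =>
      ν (e + frw m j x)) := by
    by_contra h
    exact he1 (mem_filter.mpr ⟨mem_univ _, h⟩)
  have hCu : ∀ j : Fin k, Cut j τ1 (fun x : Fin k → Fin (k * n0 + 1) → X =>
      f (e + frw m j x) - f' (e + frw m j x)) := by
    intro j
    by_contra h
    exact he2 (mem_biUnion.mpr ⟨j, mem_univ _, mem_filter.mpr ⟨mem_univ _, h⟩⟩)
  have h1 := hC (Fin (k * n0 + 1) → X) (fun j x => ν (e + frw m j x))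
    (fun j x => f (e + frw m j x)) (fun j x => f' (e + frw m j x))
    (fun j => ⟨fun x v => congrArg (fun z => ν (e + z)) (t4 m j x v),
      fun x v => congrArg (fun z => f (e + z)) (t4 m j x v),
      fun x v => congrArg (fun z => f' (e + z)) (t4 m j x v)⟩)
    (fun j x => hf _) (fun j x => hf' _) hH hCu
  linarith [(abs_le.mp h1).1]

end Pool.Agent.Lib.MP_9f2731_nt.QL.Rw
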