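import Pool.Agent.Lib.MP_9f2731_nt.QL.Rw.Spec
import Pool.Agent.Lib.MP_9f2731_nt.GP.Rel.Gcs
import Pool.Agent.Lib.MP_9f2731_nt.GP.Rel.Gst
import Pool.Agent.Lib.MP_9f2731_nt.GP.Rel.Cs1
import Pool.Agent.Lib.MP_9f2731_nt.GP.Rel.Upd
import Pool.Agent.Lib.MP_9f2731_nt.GP.Rel.Mrg

/-!
MP_9f2731_nt, QL/Rw, module Gb (helper64): the Gowers-Cauchy-Schwarz inequality with a common variable.
-/

namespace Pool.Agent.Lib.MP_9f2731_nt.QL.Rw

open Finset
open Pool.Agent.Lib.MP_9f2731_nt.GP
open Pool.Agent.Lib.MP_9f2731_nt.GP.Rel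
open Pool.Agent.Lib.MP_9f2731_nt.QL

private theorem gb_equiv {A B : Type} [Fintype A] [Fintype B] (e : A ≃ B) (g : B → ℝ) :
    av (fun a => g (e a)) = av g := by
  unfold av
  rw [Fintype.card_congr e]
  congr 1
  exact Fintype.sum_equiv e _ _ fun _ => rfl

private theorem gb_prod {A B : Type} [Fintype A] [Fintype B] (g : A → B → ℝ) :
    av (fun z : A × B => g z.1 z.2) = av (fun a => av (fun b => g a b)) := by
  unfold av
  rw [Fintype.card_prod, Fintype.sum_prod_type, ← sum_div, div_div]
  push_cast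
  rw [mul_comm (Fintype.card A : ℝ)]

/-- a marginal -/
private theorem gb_marg {α P E Y : Type} [Fintype α] [DecidableEq α] [Fintype P] [DecidableEq P]
    [Fintype E] [Nonempty E] [Fintype Y] [Nonempty Y] (a0 : α) (ι : P → α)
    (hι : Function.Injective ι) (g : E → (P → Y) → ℝ) :
    av (fun x : α → E × Y => g (x a0).1 (fun p => (x (ι p)).2)) =
      av (fun z : E × (P → Y) => g z.1 z.2) := by
  have e1 : av (fun x : α → E × Y => g (x a0).1 (fun p => (x (ι p)).2)) =
      av (fun z : (α → E) × (α → Y) => g (z.1 a0) (fun p => z.2 (ι p))) :=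
    gb_equiv (Equiv.arrowProdEquivProdArrow α (fun _ => E) (fun _ => Y))
      (fun z : (α → E) × (α → Y) => g (z.1 a0) (fun p => z.2 (ι p)))
  rw [e1, gb_prod (fun (x1 : α → E) (x2 : α → Y) => g (x1 a0) (fun p => x2 (ι p))), gb_prod]
  have e2 : ∀ x1 : α → E, av (fun x2 : α → Y => g (x1 a0) (fun p => x2 (ι p))) =
      av (fun y => g (x1 a0) y) := fun x1 => pMrg P α Y ι hι (fun y => g (x1 a0) y)
  simp only [e2]
  have e3 := pMrg Unit α E (fun _ => a0) (fun _ _ _ => rfl)
    (fun w : Unit → E => av (fun y => g (w ()) y))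
  rw [e3]
  exact gb_equiv (Equiv.funUnique Unit E) (fun e => av (fun y => g e y))

theorem pGb : GbStmt := by
  classical
  intro r E Y _ _ _ _ u H hH
  let yy : (Fin (r + 1) × Bool → E × Y) → Fin r → Y := fun x b => (x (b.succ, false)).2
  let F : (Fin (r + 1) × Bool → E × Y) → ℝ := fun x => u (x (0, false)).1 (yy x)
  let C : Fin (r + 1) → (Fin (r + 1) × Bool → E × Y) → ℝ := fun i x =>
    Fin.cases (motive := fun _ => ℝ) 1 (fun a => H a (x (0, false)).1 (yy x)) i
  let I : Finset (Fin (r + 1)) := univ.erase 0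
  have hyy : ∀ (i : Fin (r + 1)) (x : Fin (r + 1) × Bool → E × Y) (v : E × Y),
      yy (Function.update x (i, true) v) = yy x := by
    intro i x v
    funext b
    simp only [yy]
    rw [Function.update_of_ne (by simp)]
  have hF : Fr 0 F := by
    intro i _ x v
    simp only [F]
    rw [hyy, Function.update_of_ne (by simp)]
  have hCs : ∀ (a : Fin r) x, C a.succ x = H a (x (0, false)).1 (yy x) := fun a x => rfl
  have hC0 : ∀ x, C 0 x = 1 := fun x => rfl
  have hCc : ∀ l ∈ I, Fr 0 (C l) ∧ Fr 0 (fun _ : Fin (r + 1) × Bool → E × Y => (1 : ℝ)) ∧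
      Ind (l, false) (C l) ∧ Ind (l, false) (fun _ : Fin (r + 1) × Bool → E × Y => (1 : ℝ)) ∧
      ∀ x, 0 ≤ C l x ∧ C l x ≤ (1 : ℝ) := by
    intro l hl
    obtain ⟨a, rfl⟩ := Fin.exists_succ_eq.mpr (ne_of_mem_erase hl)
    refine ⟨?_, fun i _ x v => rfl, ?_, fun x v => rfl, fun x => ?_⟩
    · intro i _ x v
      rw [hCs, hCs, hyy, Function.update_of_ne (by simp)]
    · intro x v
      rw [hCs, hCs]
      have h1 : yy (Function.update x (a.succ, false) v) = Function.update (yy x) a v.2 := by
        funext b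
        simp only [yy]
        by_cases hb : b = a
        · subst hb
          rw [Function.update_self, Function.update_self]
        · rw [Function.update_of_ne (by simpa using hb), Function.update_of_ne hb]
      have h2 : Function.update x (a.succ, false) v (0, false) = x (0, false) :=
        Function.update_of_ne (by
          intro h
          exact Fin.succ_ne_zero a (congrArg Prod.fst h).symm) _ _
      rw [h1, h2]
      exact (hH a _).1 _ _
    · rw [hCs]
      exact (hH a _).2 _
  have hav : ∀ i ∈ I, ∀ s ⊆ I, i ∉ s →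
      av (fun _ : Fin (r + 1) × Bool → E × Y => ∏ _σ ∈ cube s, (1 : ℝ)) ≤ 2 := by
    intro i _ s _ _
    unfold av
    simp only [prod_const_one]
    rw [sum_const, card_univ, nsmul_eq_mul, mul_one, div_self (by positivity)]
    norm_num
  have h := pGcs (pGst (pCs1 pUpd)) (r + 1) (E × Y) 0 F C (fun _ _ => 1) I (notMem_erase 0 _) hF hCc hav
  have hI : I.card = r := by
    rw [card_erase_of_mem (mem_univ _), card_univ, Fintype.card_fin]
    simp
  rw [hI] at h
  have hL : av (fun x => F x * ∏ i ∈ I, C i x) =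
      av (fun z : E × (Fin r → Y) => u z.1 z.2 * ∏ a, H a z.1 z.2) := by
    rw [← gb_marg ((0 : Fin (r + 1)), false) (fun b : Fin r => (b.succ, false))
      (fun b c hbc => Fin.succ_injective _ (congrArg Prod.fst hbc))
      (fun e y => u e y * ∏ a, H a e y)]
    congr 1
    funext x
    have h1 : ∏ i ∈ I, C i x = ∏ a : Fin r, C a.succ x := by
      have h2 := mul_prod_erase univ (fun i => C i x) (mem_univ (0 : Fin (r + 1)))
      rw [Fin.prod_univ_succ, hC0, one_mul, one_mul] at h2
      exact h2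
    rw [h1]
    rfl
  have hR : av (fun x => (∏ σ ∈ cube I, F (tw σ x)) * ∏ i ∈ I, ∏ _σ ∈ cube (I.erase i), (1 : ℝ)) =
      av (fun z : E × (Fin r × Bool → Y) =>
        ∏ ω : Fin r → Bool, u z.1 (fun a => z.2 (a, ω a))) := by
    rw [← gb_marg ((0 : Fin (r + 1)), false) (fun p : Fin r × Bool => (p.1.succ, p.2))
      (fun p q hpq => by
        have h1 := congrArg Prod.fst hpq
        have h2 := congrArg Prod.snd hpq
        exact Prod.ext (Fin.succ_injective _ h1) h2)
      (fun e y => ∏ ω : Fin r → Bool, u e (fun a => y (a, ω a)))]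
    congr 1
    funext x
    simp only [prod_const_one, mul_one]
    refine prod_nbij' (fun σ a => σ a.succ) (fun ω => Fin.cons false ω) ?_ ?_ ?_ ?_ ?_
    · intro σ _
      exact mem_univ _
    · intro ω _
      unfold cube
      rw [mem_filter]
      refine ⟨mem_univ _, fun i hi => ?_⟩
      have h1 : i = 0 := by
        by_contra h2
        exact hi (mem_erase.mpr ⟨h2, mem_univ i⟩)
      rw [h1]
      rfl
    · intro σ hσ
      unfold cube at hσ
      rw [mem_filter] at hσ
      have h1 : σ 0 = false := hσ.2 0 (notMem_erase 0 _)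
      funext i
      refine Fin.cases ?_ (fun a => ?_) i
      · rw [Fin.cons_zero, h1]
      · rw [Fin.cons_succ]
    · intro ω _
      funext a
      exact Fin.cons_succ _ _ _
    · intro σ hσ
      unfold cube at hσ
      rw [mem_filter] at hσ
      have h1 : σ 0 = false := hσ.2 0 (notMem_erase 0 _)
      simp only [F, yy, tw, h1, Bool.false_xor, Bool.xor_false]
  rw [hL, hR] at h
  exact h

end Pool.Agent.Lib.MP_9f2731_nt.QL.Rw
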