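import Pool.Agent.Lib.MP_9f2731_nt.QL.Rw.Spec

/-!
MP_9f2731_nt, QL/Rw, module He (helper64): good base points for the linear forms condition.
-/

namespace Pool.Agent.Lib.MP_9f2731_nt.QL.Rw

open Finset
open Pool.Agent.Lib.MP_9f2731_nt.GP
open Pool.Agent.Lib.MP_9f2731_nt.GP.Rel
open Pool.Agent.Lib.MP_9f2731_nt.QL

/-- Markov's inequality. -/
private theorem he_markov {G : Type} [Fintype G] (g : G → ℝ) (η η1 : ℝ) (h1 : 0 < η1)
    (hg : ∀ e, 0 ≤ g e) (hη : av g ≤ η) (hG : (0 : ℝ) < Fintype.card G) :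
    ((univ.filter (fun e : G => η1 < g e)).card : ℝ) ≤ η / η1 * (Fintype.card G : ℝ) := by
  have h2 : η1 * ((univ.filter (fun e : G => η1 < g e)).card : ℝ) ≤ ∑ e, g e := by
    calc η1 * ((univ.filter (fun e : G => η1 < g e)).card : ℝ)
        = ∑ _e ∈ univ.filter (fun e : G => η1 < g e), η1 := by
          rw [sum_const, nsmul_eq_mul, mul_comm]
      _ ≤ ∑ e ∈ univ.filter (fun e : G => η1 < g e), g e :=
          sum_le_sum fun e he => (mem_filter.mp he).2.le
      _ ≤ ∑ e, g e := sum_le_sum_of_subset_of_nonneg (filter_subset _ _) fun e _ _ => hg e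
  have h3 : ∑ e, g e ≤ η * (Fintype.card G : ℝ) := by
    unfold av at hη
    rwa [div_le_iff₀ hG] at hη
  rw [div_mul_eq_mul_div, le_div_iff₀ h1, mul_comm]
  exact h2.trans h3

theorem pHe : HeStmt := by
  classical
  intro G _ _ X k n0 η η1 ν hη1 hη hW m hm
  have hG : (0 : ℝ) < Fintype.card G := by
    have : 0 < Fintype.card G := Fintype.card_pos_iff.mpr ⟨0⟩
    exact_mod_cast this
  let 𝒮 : Finset (Finset (Fin k × (Fin k → Bool))) :=
    univ.filter fun S => ∀ p ∈ S, p.2 p.1 = false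
  let g : Finset (Fin k × (Fin k → Bool)) → G → ℝ := fun S e =>
    |av (fun x : Fin k × Bool → Fin (k * n0 + 1) → X => ∏ p ∈ S, ν (e + frw m p.1 (pk p.2 x))) - 1|
  have hsub : (univ.filter (fun e : G => ¬ HLFC η1 (fun (j : Fin k)
      (x : Fin k → Fin (k * n0 + 1) → X) => ν (e + frw m j x)))) ⊆
      𝒮.biUnion fun S => univ.filter (fun e : G => η1 < g S e) := by
    intro e he
    rw [mem_filter] at he
    have h1 := he.2
    unfold HLFC at h1
    push Not at h1
    obtain ⟨S, hS, hlt⟩ := h1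
    rw [mem_biUnion]
    exact ⟨S, mem_filter.mpr ⟨mem_univ _, hS⟩, mem_filter.mpr ⟨mem_univ _, hlt⟩⟩
  have hcard : (𝒮.card : ℝ) ≤ 2 ^ (k * 2 ^ k) := by
    have h1 : 𝒮.card ≤ Fintype.card (Finset (Fin k × (Fin k → Bool))) := card_le_univ _
    have h2 : Fintype.card (Finset (Fin k × (Fin k → Bool))) = 2 ^ (k * 2 ^ k) := by
      rw [Fintype.card_finset, Fintype.card_prod, Fintype.card_fin, Fintype.card_fun,
        Fintype.card_bool, Fintype.card_fin]
    rw [h2] at h1
    exact_mod_cast h1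
  calc ((univ.filter (fun e : G => ¬ HLFC η1 (fun (j : Fin k)
      (x : Fin k → Fin (k * n0 + 1) → X) => ν (e + frw m j x)))).card : ℝ)
      ≤ ((𝒮.biUnion fun S => univ.filter (fun e : G => η1 < g S e)).card : ℝ) := by
        exact_mod_cast card_le_card hsub
    _ ≤ ((∑ S ∈ 𝒮, (univ.filter (fun e : G => η1 < g S e)).card : ℕ) : ℝ) := by
        exact_mod_cast card_biUnion_le
    _ = ∑ S ∈ 𝒮, ((univ.filter (fun e : G => η1 < g S e)).card : ℝ) := by push_cast; rfl
    _ ≤ ∑ _S ∈ 𝒮, η / η1 * (Fintype.card G : ℝ) := by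
        refine sum_le_sum fun S hS => ?_
        exact he_markov (g S) η η1 hη1 (fun e => abs_nonneg _) (hW m hm S (mem_filter.mp hS).2) hG
    _ = (𝒮.card : ℝ) * (η / η1 * (Fintype.card G : ℝ)) := by rw [sum_const, nsmul_eq_mul]
    _ ≤ 2 ^ (k * 2 ^ k) * (η / η1 * (Fintype.card G : ℝ)) := by
        refine mul_le_mul_of_nonneg_right hcard ?_
        positivity
    _ = _ := by ring

end Pool.Agent.Lib.MP_9f2731_nt.QL.Rw
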