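import Pool.Agent.Lib.MP_9f2731_nt.QL.Rw.Spec
import Pool.Agent.Lib.MP_9f2731_nt.GP.Rel.Mrg

/-!
MP_9f2731_nt, QL/Rw, module Law (helper34): sums of independent elements of X.
-/

namespace Pool.Agent.Lib.MP_9f2731_nt.QL.Rw

open Finset
open Pool.Agent.Lib.MP_9f2731_nt.GP
open Pool.Agent.Lib.MP_9f2731_nt.GP.Rel
open Pool.Agent.Lib.MP_9f2731_nt.QL

private theorem Law_one (ι κ G : Type) [Fintype ι] [Fintype κ] [DecidableEq ι] [DecidableEq κ]
    [AddCommGroup G] (X : Finset G) (e : ι → κ) (hX : X.Nonempty) (he : Function.Injective e)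
    (g : G → ℝ) : av (fun x : κ → X => g (∑ i : ι, ((x (e i) : X) : G))) =
      av (fun x : ι → X => g (∑ i : ι, ((x i : X) : G))) := by
  have : Nonempty X := hX.to_subtype
  exact GP.Rel.pMrg ι κ X e he fun y => g (∑ i, ((y i : X) : G))

private theorem Law_cnt (K n : ℕ) (h : n ≤ K) :
    (∑ t : Fin K, if (t : ℕ) < n then 1 else 0) = n := by
  rw [Fin.sum_univ_eq_sum_range (fun t => if t < n then 1 else 0) K, ← sum_filter, sum_const,
    smul_eq_mul, mul_one]
  have h1 : (range K).filter (fun t => t < n) = range n := by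
    ext t
    simp only [mem_filter, mem_range]
    omega
  rw [h1, card_range]

private theorem Law_mu (k m : ℕ) (hk : 1 ≤ k) : ∑ i : Fin k, mu k m i = k * (m + 1) := by
  obtain ⟨k, rfl⟩ : ∃ l, k = l + 1 := ⟨k - 1, by omega⟩
  rw [Fin.sum_univ_succ]
  have h0 : mu (k + 1) m 0 = (k + 1) * m + 1 := if_pos rfl
  have h1 : ∀ i : Fin k, mu (k + 1) m i.succ = 1 := fun i => if_neg (by simp)
  simp only [h0, h1, sum_const, card_univ, Fintype.card_fin, smul_eq_mul]
  ring

private theorem Law_le (k m K : ℕ) (hk : 1 ≤ k) (hK : k * m + 1 ≤ K) (i : Fin k) :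
    mu k m i ≤ K := by
  unfold mu
  split_ifs <;> omega

/-- the available entries -/
private abbrev LawS (k m K : ℕ) : Type := {p : Fin k × Fin K // (p.2 : ℕ) < mu k m p.1}

private theorem Law_card (k m K : ℕ) (hk : 1 ≤ k) (hK : k * m + 1 ≤ K) :
    Fintype.card (LawS k m K) = k * (m + 1) := by
  rw [Fintype.card_subtype, card_filter, Fintype.sum_prod_type]
  rw [← Law_mu k m hk]
  refine sum_congr rfl fun i _ => ?_
  exact Law_cnt K _ (Law_le k m K hk hK i)

private theorem Law_sum {G : Type} [AddCommGroup G] (X : Finset G) (k m K : ℕ)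
    (x : Fin k → Fin K → X) : ∑ i, inc (mu k m i) (x i) =
      ∑ p : LawS k m K, ((x p.1.1 p.1.2 : X) : G) := by
  have h1 : ∑ i, inc (mu k m i) (x i) = ∑ p : Fin k × Fin K,
      if (p.2 : ℕ) < mu k m p.1 then ((x p.1 p.2 : X) : G) else 0 := by
    rw [Fintype.sum_prod_type]
    rfl
  rw [h1, ← sum_filter]
  exact (sum_subtype_eq_sum_filter (s := (univ : Finset (Fin k × Fin K)))
    (p := fun p => (p.2 : ℕ) < mu k m p.1) (fun p => ((x p.1 p.2 : X) : G))).symm.trans
    (by simp)

private theorem Law_curry (k K : ℕ) (V : Type) [Fintype V] (F : (Fin k → Fin K → V) → ℝ) :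
    av F = av (fun x : Fin k × Fin K → V => F (fun i t => x (i, t))) := by
  unfold av
  rw [← Equiv.sum_comp (Equiv.curry (Fin k) (Fin K) V) F,
    Fintype.card_congr (Equiv.curry (Fin k) (Fin K) V)]
  rfl

theorem pLaw : LawStmt := by
  refine ⟨Law_one, ?_⟩
  intro G _ X k m K hX hk hK g
  have hc := Law_card k m K hk hK
  let φ : Fin (k * (m + 1)) ≃ LawS k m K := (Fintype.equivFinOfCardEq hc).symm
  have h1 := Law_one (Fin (k * (m + 1))) (Fin k × Fin K) G X (fun t => (φ t).1) hX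
    (fun a b h => φ.injective (Subtype.ext h)) g
  rw [← h1, Law_curry]
  refine congrArg av (funext fun x => ?_)
  rw [Law_sum]
  exact congrArg g (Equiv.sum_comp φ fun p : LawS k m K => ((x (p.1.1, p.1.2) : X) : G)).symm

end Pool.Agent.Lib.MP_9f2731_nt.QL.Rw
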