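import Pool.Agent.Lib.MP_9f2731_nt.QL.Rw.Spec

/-!
MP_9f2731_nt, QL/Rw, module Nb: the narrow cube condition controls the means with products of functions
which do not depend on one of the variables.
-/

namespace Pool.Agent.Lib.MP_9f2731_nt.QL.Rw

open Finset
open Pool.Agent.Lib.MP_9f2731_nt.GP
open Pool.Agent.Lib.MP_9f2731_nt.GP.Rel
open Pool.Agent.Lib.MP_9f2731_nt.QL

theorem pNb (h1 : GbStmt) (h2 : GP.Rel.AltStmt) : NbStmt := by
  intro k D η G _ _ Y ν hY hN H hH
  haveI : Nonempty G := ⟨0⟩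
  haveI : Nonempty Y := ⟨⟨hY.choose, hY.choose_spec⟩⟩
  have h3 := h1 k G Y (fun e y => ν (e + D • ∑ a, ((y a : Y) : G)) - 1) H hH
  refine h3.trans ?_
  have h4 := h2 (G × (Fin k × Bool → Y)) (Fin k → Bool) univ
    (fun ω z => ν (z.1 + D • ∑ a, ((z.2 (a, ω a) : Y) : G))) (fun _ => 1) η
    ⟨fun _ => false, mem_univ _⟩ (fun A _ => by
      have h5 := hN A
      simp only [one_mul]
      exact h5)
  have h6 : (univ : Finset (Fin k → Bool)).card = 2 ^ k := by
    rw [card_univ, Fintype.card_fun, Fintype.card_bool, Fintype.card_fin]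
  rw [h6] at h4
  simp only [one_mul] at h4
  exact mul_le_mul_of_nonneg_left h4 (by positivity)

end Pool.Agent.Lib.MP_9f2731_nt.QL.Rw
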