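import Pool.Agent.Lib.MP_9f2731_nt.QL.Rw.Spec

/-!
MP_9f2731_nt, QL/Rw, module Pda: products of shifted test functions.
-/

namespace Pool.Agent.Lib.MP_9f2731_nt.QL.Rw

open Finset
open Pool.Agent.Lib.MP_9f2731_nt.GP
open Pool.Agent.Lib.MP_9f2731_nt.GP.Rel
open Pool.Agent.Lib.MP_9f2731_nt.QL

private theorem pda_swap {α β : Type} [Fintype α] [Fintype β] (g : α → β → ℝ) :
    av (fun a => av (fun b => g a b)) = av (fun b => av (fun a => g a b)) := by
  unfold av
  rw [← sum_div, ← sum_div, sum_comm, div_div, div_div, mul_comm]

private theorem pda_abs {α : Type} [Fintype α] {g : α → ℝ} {B : ℝ} (hB : 0 ≤ B)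
    (h : ∀ a, |g a| ≤ B) : |av g| ≤ B := by
  unfold av
  rcases Nat.eq_zero_or_pos (Fintype.card α) with h0 | h0
  · rw [h0, Nat.cast_zero, div_zero, abs_zero]
    exact hB
  · have h1 : (0 : ℝ) < (Fintype.card α : ℝ) := by exact_mod_cast h0
    rw [abs_div, abs_of_pos h1, div_le_iff₀ h1]
    refine (abs_sum_le_sum_abs _ _).trans ?_
    refine (sum_le_sum fun a _ => h a).trans ?_
    rw [sum_const, nsmul_eq_mul, card_univ, mul_comm]

private theorem pda_mul {α : Type} [Fintype α] (c : ℝ) (g : α → ℝ) :
    c * av g = av (fun a => c * g a) := by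
  unfold av
  rw [← mul_sum, mul_div_assoc]

theorem pPda (h1 : NbStmt) : PdaStmt := by
  classical
  intro k η B G _ _ X Y K ν hX hY hN hB hη L
  induction L with
  | nil =>
    intro _ H hH
    have h2 := h1 k k.factorial η G Y ν hY hN H hH
    simp only [List.map_nil, List.prod_nil, mul_one]
    exact le_of_pow_le_pow_left₀ (pow_ne_zero _ two_ne_zero) hB (h2.trans hη)
  | cons l L ih =>
    intro hL H hH
    obtain ⟨m, j, h⟩ := l
    have hA : AdmW h := hL (m, j, h) (List.mem_cons_self ..)
    have hL' : ∀ l ∈ L, AdmW l.2.2 := fun l hl => hL l (List.mem_cons_of_mem _ hl)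
    -- the family for a fixed x
    let H' : (Fin k → Fin K → X) → Fin k → G → (Fin k → Y) → ℝ := fun x i e y =>
      H i e y * (if i = j then 1 else
        h i (e + k.factorial • ((y j : Y) : G) - frw m j x) (shx k.factorial j y x))
    have hH' : ∀ x, ∀ a e, Ind a (H' x a e) ∧ ∀ y, 0 ≤ H' x a e y ∧ H' x a e y ≤ 1 := by
      intro x a e
      constructor
      · intro y v
        show H a e (Function.update y a v) * _ = H a e y * _
        rw [(hH a e).1 y v]
        by_cases haj : a = j
        · rw [if_pos haj, if_pos haj]
        · rw [if_neg haj, if_neg haj, Function.update_of_ne (Ne.symm haj)]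
          have h3 : shx k.factorial j (Function.update y a v) x =
              Function.update (shx k.factorial j y x) a
                (shx k.factorial j (Function.update y a v) x a) := by
            funext i
            by_cases hia : i = a
            · subst hia
              rw [Function.update_self]
            · rw [Function.update_of_ne hia]
              unfold shx
              rw [Function.update_of_ne hia]
          rw [h3, (hA a _).1]
      · intro y
        have h4 := (hH a e).2 y
        have h5 : 0 ≤ (if a = j then (1 : ℝ) else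
            h a (e + k.factorial • ((y j : Y) : G) - frw m j x) (shx k.factorial j y x)) ∧
            (if a = j then (1 : ℝ) else
            h a (e + k.factorial • ((y j : Y) : G) - frw m j x) (shx k.factorial j y x)) ≤ 1 := by
          by_cases haj : a = j
          · rw [if_pos haj]
            exact ⟨zero_le_one, le_refl 1⟩
          · rw [if_neg haj]
            exact (hA a _).2 _
        exact ⟨mul_nonneg h4.1 h5.1, mul_le_one₀ h4.2 h5.1 h5.2⟩
    have key : ∀ z : G × (Fin k → Y), (ν (z.1 + k.factorial • ∑ a, ((z.2 a : Y) : G)) - 1) *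
        ((∏ a, H a z.1 z.2) *
          (((m, j, h) :: L).map (fun l => tsy l.1 l.2.1 l.2.2 z.1 z.2)).prod) =
        av (fun x : Fin k → Fin K → X =>
          (ν (z.1 + k.factorial • ∑ a, ((z.2 a : Y) : G)) - 1) *
          ((∏ a, H' x a z.1 z.2) * (L.map (fun l => tsy l.1 l.2.1 l.2.2 z.1 z.2)).prod)) := by
      intro z
      rw [List.map_cons, List.prod_cons]
      have h6 : ∀ x : Fin k → Fin K → X, ∏ a, H' x a z.1 z.2 = (∏ a, H a z.1 z.2) *
          ∏ i ∈ univ.erase j, h i (z.1 + k.factorial • ((z.2 j : Y) : G) - frw m j x)
            (shx k.factorial j z.2 x) := by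
        intro x
        show ∏ a, (H a z.1 z.2 * _) = _
        rw [prod_mul_distrib]
        congr 1
        rw [← mul_prod_erase univ _ (mem_univ j), if_pos rfl, one_mul]
        refine prod_congr rfl fun i hi => ?_
        rw [if_neg (ne_of_mem_erase hi)]
      simp only [h6]
      show _ * (_ * (tsy m j h z.1 z.2 * _)) = _
      unfold tsy
      have h7 : ∀ (A P T R : ℝ), A * (P * (T * R)) = (A * (P * R)) * T := fun A P T R => by ring
      rw [h7, pda_mul]
      congr 1
      funext x
      ring
    simp only [key]
    rw [pda_swap]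
    exact pda_abs hB fun x => ih hL' (H' x) (hH' x)

end Pool.Agent.Lib.MP_9f2731_nt.QL.Rw
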