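import Pool.Agent.Lib.MP_9f2731_nt.QL.Rw.Spec

/-!
MP_9f2731_nt, QL/Rw, module PolA (helper41): positive parts of sums of test functions, abstract form.
-/

namespace Pool.Agent.Lib.MP_9f2731_nt.QL.Rw

open Finset
open Pool.Agent.Lib.MP_9f2731_nt.GP
open Pool.Agent.Lib.MP_9f2731_nt.GP.Rel
open Pool.Agent.Lib.MP_9f2731_nt.QL

private theorem av_add {α : Type} [Fintype α] (f g : α → ℝ) :
    av (fun x => f x + g x) = av f + av g := by
  unfold av
  rw [Finset.sum_add_distrib, add_div]

private theorem av_sum {α κ : Type} [Fintype α] (s : Finset κ) (f : κ → α → ℝ) :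
    av (fun x => ∑ i ∈ s, f i x) = ∑ i ∈ s, av (f i) := by
  unfold av
  rw [Finset.sum_comm, Finset.sum_div]

private theorem av_mul_left {α : Type} [Fintype α] (c : ℝ) (g : α → ℝ) :
    av (fun x => c * g x) = c * av g := by
  unfold av
  rw [← Finset.mul_sum, mul_div_assoc]

private theorem av_mono {α : Type} [Fintype α] {f g : α → ℝ} (h : ∀ x, f x ≤ g x) :
    av f ≤ av g := by
  unfold av
  exact div_le_div_of_nonneg_right (Finset.sum_le_sum fun x _ => h x) (by positivity)

private theorem abs_av_le {α : Type} [Fintype α] (f : α → ℝ) : |av f| ≤ av (fun x => |f x|) := by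
  unfold av
  rw [abs_div, Nat.abs_cast]
  exact div_le_div_of_nonneg_right (Finset.abs_sum_le_sum_abs _ _) (by positivity)

theorem pPolA : PolAStmt := by
  classical
  intro T e he
  obtain ⟨p, hp⟩ := exists_polynomial_near_of_continuousOn (-(T : ℝ)) T (fun s => max s 0)
    (by fun_prop) e he
  refine ⟨p.natDegree, (∑ m ∈ range (p.natDegree + 1), |p.coeff m| * (T : ℝ) ^ m) + 1,
    by positivity, ?_⟩
  intro Ω _ _ Φ τ u hτ hΦ hu φ s hφ hs
  set S : Ω → ℝ := fun x => ∑ t ∈ range T, s t * φ t x with hS
  have hSb : ∀ x, |S x| ≤ T := by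
    intro x
    refine (Finset.abs_sum_le_sum_abs _ _).trans ?_
    calc ∑ t ∈ range T, |s t * φ t x| ≤ ∑ t ∈ range T, (1 : ℝ) := by
          refine Finset.sum_le_sum fun t _ => ?_
          rw [abs_mul, hs t, one_mul, abs_of_nonneg (hΦ _ (hφ t) x).1]
          exact (hΦ _ (hφ t) x).2
      _ = T := by simp
  -- powers
  have hpow : ∀ m : ℕ, ∀ L : List (Ω → ℝ), L.length + m ≤ p.natDegree → (∀ h ∈ L, h ∈ Φ) →
      |av (fun x => u x * (S x ^ m * (L.map (fun h => h x)).prod))| ≤ (T : ℝ) ^ m * τ := by
    intro m
    induction m with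
    | zero =>
      intro L hLn hL
      simp only [pow_zero, one_mul]
      exact hu L (by omega) hL
    | succ m ih =>
      intro L hLn hL
      have e1 : (fun x => u x * (S x ^ (m + 1) * (L.map (fun h => h x)).prod)) =
          fun x => ∑ t ∈ range T, s t * (u x * (S x ^ m *
            ((φ t :: L).map (fun h => h x)).prod)) := by
        funext x
        have e2 : S x = ∑ t ∈ range T, s t * φ t x := rfl
        rw [pow_succ, mul_assoc (S x ^ m)]
        nth_rewrite 2 [e2]
        rw [Finset.sum_mul, Finset.mul_sum, Finset.mul_sum]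
        refine Finset.sum_congr rfl fun t _ => ?_
        rw [List.map_cons, List.prod_cons]
        ring
      rw [e1, av_sum]
      refine (Finset.abs_sum_le_sum_abs _ _).trans ?_
      calc ∑ t ∈ range T, |av (fun x => s t * (u x * (S x ^ m *
            ((φ t :: L).map (fun h => h x)).prod)))|
          ≤ ∑ t ∈ range T, (T : ℝ) ^ m * τ := by
            refine Finset.sum_le_sum fun t _ => ?_
            rw [av_mul_left, abs_mul, hs t, one_mul]
            refine ih (φ t :: L) (by rw [List.length_cons]; omega) fun g hg => ?_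
            rcases List.mem_cons.1 hg with rfl | hg
            · exact hφ t
            · exact hL g hg
        _ = (T : ℝ) ^ (m + 1) * τ := by
            rw [Finset.sum_const, Finset.card_range, nsmul_eq_mul, pow_succ]
            ring
  -- the polynomial
  have hpoly : |av (fun x => u x * p.eval (S x))| ≤
      (∑ m ∈ range (p.natDegree + 1), |p.coeff m| * (T : ℝ) ^ m) * τ := by
    have e1 : (fun x => u x * p.eval (S x)) = fun x => ∑ m ∈ range (p.natDegree + 1),
        p.coeff m * (u x * (S x ^ m * (([] : List (Ω → ℝ)).map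
          (fun h => h x)).prod)) := by
      funext x
      rw [Polynomial.eval_eq_sum_range, Finset.mul_sum]
      refine Finset.sum_congr rfl fun m _ => ?_
      rw [List.map_nil, List.prod_nil]
      ring
    rw [e1, av_sum, Finset.sum_mul]
    refine (Finset.abs_sum_le_sum_abs _ _).trans (Finset.sum_le_sum fun m hm => ?_)
    rw [av_mul_left, abs_mul, mul_assoc]
    refine mul_le_mul_of_nonneg_left (hpow m [] ?_ (by simp)) (abs_nonneg _)
    rw [List.length_nil]
    have := Finset.mem_range.1 hm
    omega
  -- the difference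
  have hdiff : |av (fun x => u x * (max (S x) 0 - p.eval (S x)))| ≤ e * av (fun x => |u x|) := by
    refine (abs_av_le _).trans ?_
    rw [← av_mul_left]
    refine av_mono fun x => ?_
    rw [abs_mul, mul_comm]
    refine mul_le_mul_of_nonneg_right ?_ (abs_nonneg _)
    rw [abs_sub_comm]
    exact (hp (S x) (Set.mem_Icc.2 (abs_le.1 (hSb x)))).le
  have e3 : av (fun x => u x * max (S x) 0) =
      av (fun x => u x * p.eval (S x)) + av (fun x => u x * (max (S x) 0 - p.eval (S x))) := by
    rw [← av_add]
    congr 1
    funext x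
    ring
  rw [show (fun x => u x * max (∑ t ∈ range T, s t * φ t x) 0) =
    fun x => u x * max (S x) 0 from rfl, e3]
  refine (abs_add_le _ _).trans (add_le_add ?_ hdiff)
  rw [add_mul, one_mul]
  exact hpoly.trans (le_add_of_nonneg_right hτ)

end Pool.Agent.Lib.MP_9f2731_nt.QL.Rw
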