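import Pool.Agent.Lib.MP_9f2731_nt.QL.Rw.Spec
import Pool.Agent.Lib.MP_9f2731_nt.GP.Rel.Mrg

/-!
MP_9f2731_nt, QL/Rw, module Sh: shift of a test function.
-/

namespace Pool.Agent.Lib.MP_9f2731_nt.QL.Rw

open Finset
open Pool.Agent.Lib.MP_9f2731_nt.GP
open Pool.Agent.Lib.MP_9f2731_nt.GP.Rel
open Pool.Agent.Lib.MP_9f2731_nt.QL

private theorem sh_cc {k : ℕ} {i j : Fin k} (h : i ≠ j) :
    (((i : ℕ) : ℤ) - ((j : ℕ) : ℤ)) * cc k.factorial i j = (k.factorial : ℤ) ∧
      |cc k.factorial i j| ≤ (k.factorial : ℤ) := by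
  have hne : ((i : ℕ) : ℤ) - ((j : ℕ) : ℤ) ≠ 0 := by
    intro h0
    apply h
    apply Fin.ext
    omega
  have h1 : 0 < (((i : ℕ) : ℤ) - ((j : ℕ) : ℤ)).natAbs := Int.natAbs_pos.2 hne
  have h2 : (((i : ℕ) : ℤ) - ((j : ℕ) : ℤ)).natAbs ≤ k := by
    have := i.2
    have := j.2
    omega
  have h3 : (((i : ℕ) : ℤ) - ((j : ℕ) : ℤ)) ∣ (k.factorial : ℤ) :=
    Int.natAbs_dvd.1 (Int.natCast_dvd_natCast.2 (Nat.dvd_factorial h1 h2))
  have h4 : (((i : ℕ) : ℤ) - ((j : ℕ) : ℤ)) * cc k.factorial i j = (k.factorial : ℤ) :=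
    Int.mul_ediv_cancel' h3
  refine ⟨h4, ?_⟩
  have h5 : |(((i : ℕ) : ℤ) - ((j : ℕ) : ℤ))| * |cc k.factorial i j| = (k.factorial : ℤ) := by
    rw [← abs_mul, h4, abs_of_nonneg (Int.natCast_nonneg _)]
  have h6 : 1 ≤ |(((i : ℕ) : ℤ) - ((j : ℕ) : ℤ))| := Int.one_le_abs hne
  have h7 : 0 ≤ |cc k.factorial i j| := abs_nonneg _
  nlinarith

section grp

variable {G : Type} [AddCommGroup G]

private theorem sh_inc {X : Finset G} {K n : ℕ} (hn : 1 ≤ n) (hK : 0 < K) (g : G)
    (v : Fin K → X) (h : ((v ⟨0, hK⟩ : X) : G) + g ∈ X) : inc n (sft g v) = inc n v + g := by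
  classical
  have h1 : ∀ t : Fin K, (if (t : ℕ) < n then ((sft g v t : X) : G) else 0) =
      (if (t : ℕ) < n then ((v t : X) : G) else 0) + (if t = ⟨0, hK⟩ then g else 0) := by
    intro t
    by_cases ht : t = ⟨0, hK⟩
    · subst ht
      have h2 : ((⟨0, hK⟩ : Fin K) : ℕ) < n := hn
      rw [if_pos h2, if_pos h2, if_pos rfl]
      unfold sft
      rw [dif_pos ⟨rfl, h⟩]
    · have h2 : ¬ ((t : ℕ) = 0 ∧ ((v t : X) : G) + g ∈ X) := fun h3 => ht (Fin.ext h3.1)
      have h3 : sft g v t = v t := by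
        unfold sft
        rw [dif_neg h2]
      rw [if_neg ht, add_zero, h3]
  unfold inc
  rw [sum_congr rfl fun t _ => h1 t, sum_add_distrib, sum_ite_eq' univ (⟨0, hK⟩ : Fin K)
    (fun _ => g), if_pos (mem_univ _)]

private theorem sh_mu (k m : ℕ) (i : Fin k) : 1 ≤ mu k m i := by
  unfold mu
  split_ifs <;> omega

/-- good tuples -/
private def shG {X Y : Finset G} {K k : ℕ} (hK : 0 < K) (j : Fin k) (y : Fin k → Y)
    (x : Fin k → Fin K → X) : Prop :=
  ∀ i, i ≠ j → ((x i ⟨0, hK⟩ : X) : G) + cc k.factorial i j • ((y i : Y) : G) ∈ X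

private theorem sh_frw {X Y : Finset G} {K k : ℕ} (hK : 0 < K) (m : ℕ) (j : Fin k) (y : Fin k → Y)
    (x : Fin k → Fin K → X) (hx : shG hK j y x) :
    frw m j (shx k.factorial j y x) =
      frw m j x + k.factorial • ∑ l ∈ univ.erase j, ((y l : Y) : G) := by
  classical
  have h1 : ∀ i : Fin k, (((i : ℕ) : ℤ) - ((j : ℕ) : ℤ)) • inc (mu k m i)
      (shx k.factorial j y x i) = (((i : ℕ) : ℤ) - ((j : ℕ) : ℤ)) • inc (mu k m i) (x i) +
      (if i = j then 0 else k.factorial • ((y i : Y) : G)) := by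
    intro i
    by_cases hij : i = j
    · subst hij
      rw [if_pos rfl, sub_self, zero_smul, zero_smul, add_zero]
    · have h2 : shx k.factorial j y x i = sft (cc k.factorial i j • ((y i : Y) : G)) (x i) := by
        unfold shx
        rw [if_neg hij]
      rw [if_neg hij, h2, sh_inc (sh_mu k m i) hK _ _ (hx i hij), smul_add, smul_smul,
        (sh_cc hij).1, natCast_zsmul]
  unfold frw
  rw [sum_congr rfl fun i _ => h1 i, sum_add_distrib, smul_sum]
  congr 1
  rw [← add_sum_erase univ _ (mem_univ j), if_pos rfl, zero_add]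
  exact sum_congr rfl fun i hi => if_neg (ne_of_mem_erase hi)

private theorem sh_inj {X Y : Finset G} {K k : ℕ} (hK : 0 < K) (j : Fin k) (y : Fin k → Y)
    {x x' : Fin k → Fin K → X} (hx : shG hK j y x) (hx' : shG hK j y x')
    (h : shx k.factorial j y x = shx k.factorial j y x') : x = x' := by
  funext i t
  have h1 := congrFun (congrFun h i) t
  by_cases hij : i = j
  · unfold shx at h1
    rw [if_pos hij, if_pos hij] at h1
    exact h1
  · unfold shx at h1
    rw [if_neg hij, if_neg hij] at h1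
    by_cases ht : t = ⟨0, hK⟩
    · subst ht
      unfold sft at h1
      rw [dif_pos ⟨rfl, hx i hij⟩, dif_pos ⟨rfl, hx' i hij⟩] at h1
      exact Subtype.ext (add_right_cancel (Subtype.ext_iff.1 h1))
    · unfold sft at h1
      rw [dif_neg fun h3 => ht (Fin.ext h3.1), dif_neg fun h3 => ht (Fin.ext h3.1)] at h1
      exact h1

end grp

private theorem sh_marg {ι V : Type} [Fintype ι] [DecidableEq ι] [Fintype V] [Nonempty V] (i : ι)
    (g : V → ℝ) : av (fun x : ι → V => g (x i)) = av g := by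
  have h1 := pMrg Unit ι V (fun _ => i) (fun _ _ _ => rfl) (fun f => g (f ()))
  rw [h1]
  unfold av
  rw [Fintype.card_congr (Equiv.funUnique Unit V)]
  congr 1
  exact Fintype.sum_equiv (Equiv.funUnique Unit V) _ _ fun f => rfl

private theorem sh_mono {α : Type} [Fintype α] {g g' : α → ℝ} (h : ∀ a, g a ≤ g' a) :
    av g ≤ av g' := by
  unfold av
  exact div_le_div_of_nonneg_right (sum_le_sum fun a _ => h a) (Nat.cast_nonneg _)

open Classical in
private theorem sh_bad {G : Type} [AddCommGroup G] [DecidableEq G] {X Y : Finset G} {K k : ℕ}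
    (hK : 0 < K) (hX : X.Nonempty) {θ : ℝ} (hθ : 0 ≤ θ) (hS : Shf k.factorial θ X Y)
    (j : Fin k) (y : Fin k → Y) :
    ((univ.filter (fun x : Fin k → Fin K → X => ¬ shG hK j y x)).card : ℝ) /
      (Fintype.card (Fin k → Fin K → X) : ℝ) ≤ k * θ := by
  haveI : Nonempty X := ⟨⟨hX.choose, hX.choose_spec⟩⟩
  have hXc : (0 : ℝ) < (X.card : ℝ) := by exact_mod_cast hX.card_pos
  let I : Fin k → X → ℝ := fun i w =>
    if ((w : X) : G) + cc k.factorial i j • ((y i : Y) : G) ∉ X then 1 else 0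
  have hI : ∀ i, i ≠ j → av (I i) ≤ θ := by
    intro i hi
    have h1 := hS (y i) (y i).2 (cc k.factorial i j) (sh_cc hi).2
    have h2 : ∑ w : X, I i w ≤ θ * (X.card : ℝ) := by
      refine le_trans (le_of_eq ?_) h1
      rw [card_filter, Nat.cast_sum, ← sum_coe_sort X]
      refine sum_congr rfl fun w _ => ?_
      show (if _ then (1 : ℝ) else 0) = _
      by_cases hw : ((w : X) : G) + cc k.factorial i j • ((y i : Y) : G) ∉ X
      · rw [if_pos hw, if_pos hw, Nat.cast_one]
      · rw [if_neg hw, if_neg hw, Nat.cast_zero]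
    unfold av
    rw [Fintype.card_coe, div_le_iff₀ hXc]
    exact h2
  have h3 : ((univ.filter (fun x : Fin k → Fin K → X => ¬ shG hK j y x)).card : ℝ) /
      (Fintype.card (Fin k → Fin K → X) : ℝ) =
      av (fun x : Fin k → Fin K → X => if ¬ shG hK j y x then (1 : ℝ) else 0) := by
    unfold av
    rw [card_filter, Nat.cast_sum]
    congr 1
    refine sum_congr rfl fun x _ => ?_
    show _ = (if ¬ shG hK j y x then (1 : ℝ) else 0)
    by_cases hx : ¬ shG hK j y x
    · rw [if_pos hx, if_pos hx, Nat.cast_one]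
    · rw [if_neg hx, if_neg hx, Nat.cast_zero]
  have hI0 : ∀ i w, 0 ≤ I i w := by
    intro i w
    show (0 : ℝ) ≤ if _ then 1 else 0
    split_ifs <;> norm_num
  have h4 : av (fun x : Fin k → Fin K → X => if ¬ shG hK j y x then (1 : ℝ) else 0) ≤
      av (fun x : Fin k → Fin K → X => ∑ i ∈ univ.erase j, I i (x i ⟨0, hK⟩)) := by
    refine sh_mono fun x => ?_
    by_cases hx : shG hK j y x
    · rw [if_neg (not_not.2 hx)]
      exact sum_nonneg fun i _ => hI0 i _
    · rw [if_pos hx]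
      unfold shG at hx
      push Not at hx
      obtain ⟨i, hi, hx⟩ := hx
      have h5 : I i (x i ⟨0, hK⟩) = 1 := if_pos hx
      rw [← h5]
      exact single_le_sum (f := fun i => I i (x i ⟨0, hK⟩)) (fun i _ => hI0 i _)
        (mem_erase.2 ⟨hi, mem_univ i⟩)
  have h5 : av (fun x : Fin k → Fin K → X => ∑ i ∈ univ.erase j, I i (x i ⟨0, hK⟩)) =
      ∑ i ∈ univ.erase j, av (I i) := by
    have h6 : ∀ i, av (I i) = av (fun x : Fin k → Fin K → X => I i (x i ⟨0, hK⟩)) := by
      intro i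
      rw [sh_marg i (fun v : Fin K → X => I i (v ⟨0, hK⟩)), sh_marg]
    rw [sum_congr rfl fun i _ => h6 i]
    unfold av
    rw [sum_comm, sum_div]
  rw [h3]
  refine h4.trans (h5.le.trans ?_)
  refine (sum_le_sum fun i hi => hI i (ne_of_mem_erase hi)).trans ?_
  rw [sum_const, nsmul_eq_mul]
  refine mul_le_mul_of_nonneg_right ?_ hθ
  have h7 : (univ.erase j : Finset (Fin k)).card ≤ k := by
    refine (card_erase_le).trans ?_
    rw [card_univ, Fintype.card_fin]
  exact_mod_cast h7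

theorem pSh : ShStmt := by
  classical
  intro k θ G _ _ inst X Y K hK hθ hX hS m j h hA z y
  have hK' : 0 < K := hK
  haveI : Nonempty X := ⟨⟨hX.choose, hX.choose_spec⟩⟩
  let F : (Fin k → Fin K → X) → ℝ := fun x => ∏ i ∈ univ.erase j, h i (z - frw m j x) x
  let T : (Fin k → Fin K → X) → ℝ := fun x => ∏ i ∈ univ.erase j,
      h i (z - frw m j x - k.factorial • ∑ l ∈ univ.erase j, ((y l : Y) : G))
        (shx k.factorial j y x)
  have hF : ∀ x, 0 ≤ F x ∧ F x ≤ 1 := fun x =>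
    ⟨prod_nonneg fun i _ => ((hA i _).2 _).1,
      prod_le_one (fun i _ => ((hA i _).2 _).1) fun i _ => ((hA i _).2 _).2⟩
  have hT : ∀ x, 0 ≤ T x ∧ T x ≤ 1 := fun x =>
    ⟨prod_nonneg fun i _ => ((hA i _).2 _).1,
      prod_le_one (fun i _ => ((hA i _).2 _).1) fun i _ => ((hA i _).2 _).2⟩
  have hTF : ∀ x, shG hK' j y x → T x = F (shx k.factorial j y x) := by
    intro x hx
    show ∏ i ∈ _, _ = ∏ i ∈ _, _
    rw [sh_frw hK' m j y x hx]
    refine prod_congr rfl fun i _ => ?_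
    rw [sub_sub]
  show |av F - av T| ≤ k * θ
  refine le_trans ?_ (sh_bad hK' hX hθ hS j y)
  have hinj : Set.InjOn (shx k.factorial j y)
      ((univ.filter (fun x : Fin k → Fin K → X => shG hK' j y x) :
        Finset (Fin k → Fin K → X)) : Set (Fin k → Fin K → X)) := by
    intro x hx x' hx' he
    exact sh_inj hK' j y (mem_filter.1 (mem_coe.1 hx)).2 (mem_filter.1 (mem_coe.1 hx')).2 he
  have e1 : ∑ x, F x = ∑ x ∈ univ.filter (fun x : Fin k → Fin K → X => shG hK' j y x), T x +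
      ∑ x ∈ ((univ.filter (fun x : Fin k → Fin K → X => shG hK' j y x)).image
        (shx k.factorial j y))ᶜ, F x := by
    rw [← sum_add_sum_compl ((univ.filter (fun x : Fin k → Fin K → X => shG hK' j y x)).image
        (shx k.factorial j y)) F, sum_image hinj]
    congr 1
    exact sum_congr rfl fun x hx => (hTF x (mem_filter.1 hx).2).symm
  have e2 : ∑ x, T x = ∑ x ∈ univ.filter (fun x : Fin k → Fin K → X => shG hK' j y x), T x +
      ∑ x ∈ univ.filter (fun x : Fin k → Fin K → X => ¬ shG hK' j y x), T x :=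
    (sum_filter_add_sum_filter_not univ _ T).symm
  have c1 : (((univ.filter (fun x : Fin k → Fin K → X => shG hK' j y x)).image
      (shx k.factorial j y))ᶜ).card =
      (univ.filter (fun x : Fin k → Fin K → X => ¬ shG hK' j y x)).card := by
    rw [card_compl, card_image_of_injOn hinj]
    have h1 := card_filter_add_card_filter_not (s := (univ : Finset (Fin k → Fin K → X)))
      (fun x => shG hK' j y x)
    rw [card_univ] at h1
    omega
  have b1 : ∀ s : Finset (Fin k → Fin K → X), ∀ f : (Fin k → Fin K → X) → ℝ,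
      (∀ x, 0 ≤ f x ∧ f x ≤ 1) → 0 ≤ ∑ x ∈ s, f x ∧ ∑ x ∈ s, f x ≤ (s.card : ℝ) := by
    intro s f hf
    refine ⟨sum_nonneg fun x _ => (hf x).1, (sum_le_sum fun x _ => (hf x).2).trans ?_⟩
    rw [sum_const, nsmul_eq_mul, mul_one]
  unfold av
  rw [div_sub_div_same, abs_div,
    abs_of_nonneg (Nat.cast_nonneg (Fintype.card (Fin k → Fin K → X)) :
      (0 : ℝ) ≤ (Fintype.card (Fin k → Fin K → X) : ℝ))]
  refine div_le_div_of_nonneg_right ?_ (Nat.cast_nonneg _)
  rw [e1, e2, add_sub_add_left_eq_sub, abs_le]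
  have b2 := b1 (((univ.filter (fun x : Fin k → Fin K → X => shG hK' j y x)).image
      (shx k.factorial j y))ᶜ) F hF
  have b3 := b1 (univ.filter (fun x : Fin k → Fin K → X => ¬ shG hK' j y x)) T hT
  rw [c1] at b2
  constructor <;> linarith [b2.1, b2.2, b3.1, b3.2]

end Pool.Agent.Lib.MP_9f2731_nt.QL.Rw
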