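import Pool.Agent.Lib.MP_9f2731_nt.QL.Rw.Spec

/-!
MP_9f2731_nt, QL/Rw, module Tb (helper64): basic facts on the test functions.
-/

namespace Pool.Agent.Lib.MP_9f2731_nt.QL.Rw

open Finset
open Pool.Agent.Lib.MP_9f2731_nt.GP
open Pool.Agent.Lib.MP_9f2731_nt.GP.Rel
open Pool.Agent.Lib.MP_9f2731_nt.QL

private theorem tb_av_mem {α : Type} [Fintype α] (g : α → ℝ) (h : ∀ x, 0 ≤ g x ∧ g x ≤ 1) :
    0 ≤ av g ∧ av g ≤ 1 := by
  unfold av
  refine ⟨div_nonneg (sum_nonneg fun x _ => (h x).1) (Nat.cast_nonneg _), ?_⟩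
  refine div_le_one_of_le₀ ?_ (Nat.cast_nonneg _)
  calc ∑ x, g x ≤ ∑ _x : α, (1 : ℝ) := sum_le_sum fun x _ => (h x).2
    _ = (Fintype.card α : ℝ) := by
      rw [sum_const, card_univ, nsmul_eq_mul, mul_one]

private theorem tb_av_one {α : Type} [Fintype α] [Nonempty α] : av (fun _ : α => (1 : ℝ)) = 1 := by
  unfold av
  rw [sum_const, card_univ, nsmul_eq_mul, mul_one]
  exact div_self (by positivity)

theorem pTb : TbStmt := by
  intro G _ _ X K k n0 hX
  have : Nonempty X := hX.to_subtype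
  refine ⟨?_, ?_, ?_, ?_⟩
  · rintro φ ⟨m, _, j, h, hh, rfl⟩ z
    unfold tst
    refine tb_av_mem _ fun x => ?_
    refine ⟨prod_nonneg fun i _ => ((hh i _).2 x).1, prod_le_one (fun i _ => ((hh i _).2 x).1)
      fun i _ => ((hh i _).2 x).2⟩
  · intro hn hk
    refine ⟨0, by omega, ⟨0, by omega⟩, fun _ _ _ => 1, ?_, ?_⟩
    · intro i e
      exact ⟨fun x v => rfl, fun x => ⟨zero_le_one, le_refl 1⟩⟩
    · funext z
      unfold tst
      simp only [prod_const_one]
      rw [tb_av_one]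
  · intro m j h u
    unfold tst av
    congr 1
    simp only [mul_div_assoc', mul_sum, sum_div]
    rw [sum_comm, sum_comm (s := (univ : Finset G))]
    refine sum_congr rfl fun x _ => ?_
    refine Fintype.sum_equiv (Equiv.subRight (frw m j x)) _ _ fun z => ?_
    simp only [Equiv.subRight_apply, sub_add_cancel]
  · intro m j x v
    unfold frw
    refine sum_congr rfl fun i _ => ?_
    by_cases hij : i = j
    · subst hij
      rw [sub_self, zero_smul, zero_smul]
    · rw [Function.update_of_ne hij]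

end Pool.Agent.Lib.MP_9f2731_nt.QL.Rw
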