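import Pool.Agent.Lib.MP_9f2731_nt.QL.Rw.Apl
import Pool.Agent.Lib.MP_9f2731_nt.QL.Rw.Ce
import Pool.Agent.Lib.MP_9f2731_nt.QL.Rw.DmaA
import Pool.Agent.Lib.MP_9f2731_nt.QL.Rw.Dnw
import Pool.Agent.Lib.MP_9f2731_nt.QL.Rw.Fw
import Pool.Agent.Lib.MP_9f2731_nt.QL.Rw.Gb
import Pool.Agent.Lib.MP_9f2731_nt.QL.Rw.He
import Pool.Agent.Lib.MP_9f2731_nt.QL.Rw.Law
import Pool.Agent.Lib.MP_9f2731_nt.QL.Rw.Nb
import Pool.Agent.Lib.MP_9f2731_nt.QL.Rw.Pd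
import Pool.Agent.Lib.MP_9f2731_nt.QL.Rw.Pda
import Pool.Agent.Lib.MP_9f2731_nt.QL.Rw.PolA
import Pool.Agent.Lib.MP_9f2731_nt.QL.Rw.Sh
import Pool.Agent.Lib.MP_9f2731_nt.QL.Rw.Tb
import Pool.Agent.Lib.MP_9f2731_nt.GP.Rel.All

/-!
MP_9f2731_nt, QL/Rw (helper78): the relative Szemeredi theorem with two scales from the density Hales-Jewett theorem.
-/

namespace Pool.Agent.Lib.MP_9f2731_nt.QL.Rw

open Pool.Agent.Lib.MP_9f2731_nt.GP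

theorem rwAll (hD : DhjStmt) : RelWStmt := by
  have aGst := GP.Rel.pGst (GP.Rel.pCs1 GP.Rel.pUpd)
  have aGcs := GP.Rel.pGcs aGst
  have aPr2 := GP.Rel.pPr2 GP.Rel.pUpd GP.Rel.pMrg
  have aCl := GP.Rel.pCl GP.Rel.pCl0 (GP.Rel.pCl1 (GP.Rel.pStf aGcs GP.Rel.pAlt) aPr2
    (GP.Rel.pVar aPr2 GP.Rel.pMrg))
  have aPd := pPd pSh (pPda (pNb pGb GP.Rel.pAlt))
  exact pFw aCl (pDmaA pPolA) aPd (pDnw hD pLaw (pApl pLaw)) pTb (pCe pTb) pHe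

end Pool.Agent.Lib.MP_9f2731_nt.QL.Rw
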