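import Pool.Agent.Lib.MP_9f2731_nt.QL.Defs

/-!
MP_9f2731_nt, QL/Rw (helper78): relative Szemeredi theorem with two scales: DhjStmt → RelWStmt. Rules: a module
`X.lean` in this directory starts with `import Pool.Agent.Lib.MP_9f2731_nt.QL.Rw.Spec`, `namespace
Pool.Agent.Lib.MP_9f2731_nt.QL.Rw`, `open Finset`, `open Pool.Agent.Lib.MP_9f2731_nt.GP
Pool.Agent.Lib.MP_9f2731_nt.GP.Rel Pool.Agent.Lib.MP_9f2731_nt.QL` and proves the theorem `pX`. Statements under
Uses are hypotheses, in this order. All modules are independent. The modules of GP/Rel are proved (import them if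
useful: GP.Rel.Mrg : pMrg, GP.Rel.Upd, GP.Rel.Cs1, GP.Rel.Gcs, GP.Rel.Alt, GP.Rel.Reg, GP.Rel.Dmt, GP.Rel.Pol,
GP.Rel.Dns show similar proofs).
Notation: G a finite abelian group, V = Fin K → X (tuples of elements of the finite set X), av = mean.
-/

namespace Pool.Agent.Lib.MP_9f2731_nt.QL.Rw

open Finset
open Pool.Agent.Lib.MP_9f2731_nt.GP
open Pool.Agent.Lib.MP_9f2731_nt.GP.Rel
open Pool.Agent.Lib.MP_9f2731_nt.QL

/-! ### Abstract dense model theorem -/

/-- Module PolA (compare GP/Rel/Pol.lean). Uses: nothing. Proof. By Weierstrass (exists_polynomial_near_of_continuousOn on [-T,T]) there is a real polynomial P with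
|P(s) - max(s,0)| ≤ e on [-T,T]. n = its degree, C = 1 + ∑_m |coeff m| T^m. For S x = ∑_{t<T} s_t φ_t x we have |S x| ≤ T, and for every list L of elements of Φ and every m with
L.length + m ≤ n: |av (u S^m ∏ L)| ≤ T^m τ (induction on m: S^(m+1) = ∑_t s_t φ_t S^m, put φ_t into the list), so |av (u P(S))| ≤ C τ, and |av (u (P(S) - max(S,0)))| ≤ e av |u|. -/
def PolAStmt : Prop :=
  ∀ (T : ℕ) (e : ℝ), 0 < e → ∃ (n : ℕ) (C : ℝ), 0 < C ∧ ∀ (Ω : Type) [Fintype Ω] [Nonempty Ω]
    (Φ : Set (Ω → ℝ)) (τ : ℝ) (u : Ω → ℝ), 0 ≤ τ → (∀ φ ∈ Φ, ∀ x, 0 ≤ φ x ∧ φ x ≤ 1) →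
    (∀ L : List (Ω → ℝ), L.length ≤ n → (∀ φ ∈ L, φ ∈ Φ) →
      |av (fun x => u x * (L.map (fun φ => φ x)).prod)| ≤ τ) →
    ∀ (φ : ℕ → Ω → ℝ) (s : ℕ → ℝ), (∀ t, φ t ∈ Φ) → (∀ t, |s t| = 1) →
    |av (fun x => u x * max (∑ t ∈ range T, s t * φ t x) 0)| ≤ C * τ + e * av (fun x => |u x|)

/-- Module DmaA (abstract dense model theorem; compare GP/Rel/Dmt.lean). Uses: PolA (and the proved GP.Rel.RegStmt: import Pool.Agent.Lib.MP_9f2731_nt.GP.Rel.Reg, theorem GP.Rel.pReg). Proof. ε ≤ 1 WLOG, γ = ε/2, T = ⌈4/ε^2⌉, e = ε T/24, (n, C) from PolA for T, e,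
τ = min(1, ε T/(8 C)). Suppose no f' works. Claim: for all m ≤ T there are φ_t ∈ Φ and signs s_t with s_t av ((f - f'_t) φ_t) > ε for all t < m, f'_t = max 0 (min 1 (γ ∑_{s<t} s_s φ_s)) (induction on m: f'_m is in [0,1], so some φ_m ∈ Φ has
|av((f - f'_m) φ_m)| > ε; for t ≥ m put φ_t = 1 ∈ Φ). Sum over t < T: ε T < av (f S) - ∑_t av (f'_t s_t φ_t), S = ∑_{t<T} s_t φ_t. Reg for a_t = s_t φ_t x at every x: max(S,0) ≤ ∑_t f'_t s_t φ_t + 1/(2γ) + γ T/2, and
f S ≤ ν max(S,0). So ε T < av ((ν - 1) max(S,0)) + 1/ε + ε T/4 ≤ av ((ν-1) max(S,0)) + ε T/2. By PolA (u = ν - 1) the mean is ≤ C τ + e av |ν-1| ≤ ε T/8 + e (av ν + 1) ≤ ε T/8 + 3e = ε T/4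
(av ν ≤ 1 + τ ≤ 2: the empty list): contradiction. -/
def DmaAStmt : Prop :=
  ∀ ε : ℝ, 0 < ε → ∃ (n : ℕ) (τ : ℝ), 0 < τ ∧ ∀ (Ω : Type) [Fintype Ω] [Nonempty Ω] (Φ : Set (Ω → ℝ)),
    (∀ φ ∈ Φ, ∀ x, 0 ≤ φ x ∧ φ x ≤ 1) → (fun _ => (1 : ℝ)) ∈ Φ →
    ∀ ν f : Ω → ℝ, (∀ x, 0 ≤ f x ∧ f x ≤ ν x) →
    (∀ L : List (Ω → ℝ), L.length ≤ n → (∀ φ ∈ L, φ ∈ Φ) →
      |av (fun x => (ν x - 1) * (L.map (fun φ => φ x)).prod)| ≤ τ) →
    ∃ f' : Ω → ℝ, (∀ x, 0 ≤ f' x ∧ f' x ≤ 1) ∧ ∀ φ ∈ Φ, |av (fun x => (f x - f' x) * φ x)| ≤ ε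

/-! ### Test functions -/

section tst

variable {G : Type} [AddCommGroup G]

/-- admissible families: h i e does not depend on the vertex i and has values in [0,1] -/
def AdmW {V : Type} {k : ℕ} (h : Fin k → G → (Fin k → V) → ℝ) : Prop :=
  ∀ i e, Ind i (h i e) ∧ ∀ x, 0 ≤ h i e x ∧ h i e x ≤ 1

/-- test function of type (m,j) -/
noncomputable def tst {X : Finset G} {K k : ℕ} (m : ℕ) (j : Fin k)
    (h : Fin k → G → (Fin k → Fin K → X) → ℝ) (z : G) : ℝ :=
  av (fun x : Fin k → Fin K → X => ∏ i ∈ univ.erase j, h i (z - frw m j x) x)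

/-- the class of the test functions -/
def TC (k K n0 : ℕ) (X : Finset G) : Set (G → ℝ) :=
  {φ | ∃ m : ℕ, m < n0 ∧ ∃ (j : Fin k) (h : Fin k → G → (Fin k → Fin K → X) → ℝ), AdmW h ∧ φ = tst m j h}

/-- the quotient D/(i - j) -/
def cc {k : ℕ} (D : ℕ) (i j : Fin k) : ℤ := (D : ℤ) / (((i : ℕ) : ℤ) - ((j : ℕ) : ℤ))

open Classical in
/-- add g to the entry 0 of a tuple, if the result is in X -/
noncomputable def sft {X : Finset G} {K : ℕ} (g : G) (v : Fin K → X) : Fin K → X :=
  fun t => if h : (t : ℕ) = 0 ∧ ((v t : X) : G) + g ∈ X then ⟨((v t : X) : G) + g, h.2⟩ else v t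

/-- the shift of all vertices except j by the multiples cc D i j of the y i -/
noncomputable def shx {X Y : Finset G} {K k : ℕ} (D : ℕ) (j : Fin k) (y : Fin k → Y)
    (x : Fin k → Fin K → X) : Fin k → Fin K → X :=
  fun i => if i = j then x i else sft (cc D i j • ((y i : Y) : G)) (x i)

end tst

/-- Module Tb (basic facts). Uses: nothing. Proof. (1) means of products of numbers in [0,1]. (2) n0 ≥ 1, k ≥ 1: h = 1. (3) av over z of u z * av over x of F(z - frw m j x, x): exchange the two means and substitute z = e + frw m j x (for a fixed x a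
bijection of G: Equiv.addRight). (4) the coefficient of the vertex j in frw m j is j - j = 0. -/
def TbStmt : Prop :=
  ∀ (G : Type) [AddCommGroup G] [Fintype G] (X : Finset G) (K k n0 : ℕ), X.Nonempty →
    (∀ φ ∈ TC k K n0 X, ∀ z, 0 ≤ φ z ∧ φ z ≤ 1) ∧
    (1 ≤ n0 → 1 ≤ k → (fun _ => (1 : ℝ)) ∈ TC k K n0 X) ∧
    (∀ (m : ℕ) (j : Fin k) (h : Fin k → G → (Fin k → Fin K → X) → ℝ) (u : G → ℝ),
      av (fun z => u z * tst m j h z) =
        av (fun e : G => av (fun x : Fin k → Fin K → X =>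
          u (e + frw m j x) * ∏ i ∈ univ.erase j, h i e x))) ∧
    ∀ (m : ℕ) (j : Fin k) (x : Fin k → Fin K → X) (v : Fin K → X),
      frw m j (Function.update x j v) = frw m j x

/-! ### Narrow scale -/

/-- Module Gb (Gowers-Cauchy-Schwarz with a common variable). Uses: nothing (Cs1, Gcs of GP/Rel can serve as model or be used). Proof. For s ⊆ Fin r let cube s = the ω vanishing outside s and Q_s = av over (e, y), y : Fin r × Bool → Y, of ∏_{ω ∈ cube s}
(u e (y_ω) ∏_{a ∉ s} H a e (y_ω)), y_ω = fun a => y (a, ω a). For a ∉ s the factor P = ∏_{ω ∈ cube s} H a e (y_ω) is in [0,1] and does not depend on y (a,false) (H a e is independent of the coordinate a, and ω a = false for ω ∈ cube s) nor on y (a,true); the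
rest B depends on y(a,false), not on y (a,true). So |Q_s| ≤ av P |av_{y(a,false)} B| ≤ (av (av_{y(a,false)} B)^2)^(1/2), i.e. Q_s^2 ≤ Q_{insert a s} (the square of the inner mean is the mean over y(a,false), y(a,true) of B B'). By induction |Q_∅|^(2^r) ≤ |Q_univ|. Q_∅ is the left
mean (the coordinates (a,true) are not used). The constant 2^(2^r) on the right side is not needed; it permits the use of Gcs with I = univ.erase j and the vertex j as carrier of e. -/
def GbStmt : Prop :=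
  ∀ (r : ℕ) (E Y : Type) [Fintype E] [Nonempty E] [Fintype Y] [Nonempty Y] (u : E → (Fin r → Y) → ℝ)
    (H : Fin r → E → (Fin r → Y) → ℝ), (∀ a e, Ind a (H a e) ∧ ∀ y, 0 ≤ H a e y ∧ H a e y ≤ 1) →
    |av (fun z : E × (Fin r → Y) => u z.1 z.2 * ∏ a, H a z.1 z.2)| ^ (2 ^ r) ≤
      2 ^ (2 ^ r) * |av (fun z : E × (Fin r × Bool → Y) =>
        ∏ ω : Fin r → Bool, u z.1 (fun a => z.2 (a, ω a)))|

/-- Module Nb. Uses: Gb, GP.Rel.AltStmt. Proof. Gb with u e y = ν(e + D ∑ y) - 1. The right mean is av ∏_ω (ν(..ω) - 1), by Alt (B = univ, f ω z = ν (z.1 + D • ∑ a, z.2 (a, ω a)), Γ = 1; every subset A is a case of NLF) at most 2^(2^k) η in absolute value. -/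
def NbStmt : Prop :=
  ∀ (k D : ℕ) (η : ℝ) (G : Type) [AddCommGroup G] [Fintype G] (Y : Finset G) (ν : G → ℝ), Y.Nonempty →
    NLF k D η Y ν → ∀ H : Fin k → G → (Fin k → Y) → ℝ,
    (∀ a e, Ind a (H a e) ∧ ∀ y, 0 ≤ H a e y ∧ H a e y ≤ 1) →
    |av (fun z : G × (Fin k → Y) =>
      (ν (z.1 + D • ∑ a, ((z.2 a : Y) : G)) - 1) * ∏ a, H a z.1 z.2)| ^ (2 ^ k) ≤
      2 ^ (2 ^ k) * (2 ^ (2 ^ k) * η)

/-- Module Sh (shift of a test function). Uses: nothing. Proof. D = k!, so (i - j) cc D i j = D and |cc D i j| ≤ D for i ≠ j (0 < |i - j| < k divides k!). N = the number of x : Fin k → Fin K → X (K ≥ 1, let t0 = 0 : Fin K). Call x good if x i t0 + cc D i j • y i ∈ X for all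
i ≠ j. By Shf at most k θ N of the x are not good. For good x: S x = shx D j y x has frw m j (S x) = frw m j x + D • ∑_{i≠j} y i (inc n (sft g v) = inc n v + g for n ≥ 1 when v t0 + g ∈ X; mu ≥ 1; (i-j) • (cc • y) = D • y), so the term of the second mean at x is F(S x),
F x = ∏_{i≠j} h i (z - frw m j x) x. S is injective on the good x. So ∑_x F x - ∑_{good} F(S x) = the sum of F over the complement of S(good), which has as many elements as the set of the bad x; both this sum and the sum of the second mean over the bad x are between 0 and the number of bad x. -/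
def ShStmt : Prop :=
  ∀ (k : ℕ) (θ : ℝ) (G : Type) [AddCommGroup G] [Fintype G] [DecidableEq G] (X Y : Finset G) (K : ℕ),
    1 ≤ K → 0 ≤ θ → X.Nonempty → Shf k.factorial θ X Y →
    ∀ (m : ℕ) (j : Fin k) (h : Fin k → G → (Fin k → Fin K → X) → ℝ), AdmW h →
    ∀ (z : G) (y : Fin k → Y),
    |tst m j h z - av (fun x : Fin k → Fin K → X => ∏ i ∈ univ.erase j,
      h i (z - frw m j x - k.factorial • ∑ l ∈ univ.erase j, ((y l : Y) : G))
        (shx k.factorial j y x))| ≤ k * θ

/-- the shifted test function: e is the base point, y the narrow variables -/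
noncomputable def tsy {G : Type} [AddCommGroup G] {X Y : Finset G} {K k : ℕ} (m : ℕ) (j : Fin k)
    (h : Fin k → G → (Fin k → Fin K → X) → ℝ) (e : G) (y : Fin k → Y) : ℝ :=
  av (fun x : Fin k → Fin K → X => ∏ i ∈ univ.erase j,
    h i (e + k.factorial • ((y j : Y) : G) - frw m j x) (shx k.factorial j y x))

/-- Module Pda (products of shifted test functions). Uses: Nb. Proof. Induction on the list L, for all families H with the property of Nb at the same time. Empty list: Nb (with B = (4^(2^k) η)^(1/2^k), i.e. |mean|^(2^k) ≤ 4^(2^k) η). L = (m,j,h) :: L': the factor tsy m j h e y is a mean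
over x; exchange it with the mean over (e,y). For a fixed x the family H' i e y = H i e y * (if i = j then 1 else h i (e + k! • y j - frw m j x) (shx k! j y x)) has again the property: for i ≠ j the new factor does not depend on y i, because y j is not changed, shx changes only at the vertex i when y i
is changed, and h i e' does not depend on the vertex i. So for every x the mean is ≤ B in absolute value by induction. -/
def PdaStmt : Prop :=
  ∀ (k : ℕ) (η B : ℝ) (G : Type) [AddCommGroup G] [Fintype G] (X Y : Finset G) (K : ℕ) (ν : G → ℝ),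
    X.Nonempty → Y.Nonempty → NLF k k.factorial η Y ν → 0 ≤ B → 2 ^ (2 ^ k) * (2 ^ (2 ^ k) * η) ≤ B ^ (2 ^ k) →
    ∀ (L : List (ℕ × Fin k × (Fin k → G → (Fin k → Fin K → X) → ℝ))), (∀ l ∈ L, AdmW l.2.2) →
    ∀ H : Fin k → G → (Fin k → Y) → ℝ, (∀ a e, Ind a (H a e) ∧ ∀ y, 0 ≤ H a e y ∧ H a e y ≤ 1) →
    |av (fun z : G × (Fin k → Y) => (ν (z.1 + k.factorial • ∑ a, ((z.2 a : Y) : G)) - 1) *
      ((∏ a, H a z.1 z.2) * (L.map (fun l => tsy l.1 l.2.1 l.2.2 z.1 z.2)).prod))| ≤ B

/-- Module Pd (products of test functions). Uses: Sh, Pda. Proof. Choose B = τ/4, η = min 1 ((B/4)^(2^k)), θ = τ/(8 (n+1)(k+1)). Given the list L of length ≤ n write its elements as tst m j h (m < n0). av over z of (ν z - 1) ∏ L(z) is the mean over (e,y) of the same expression at z = e + k! • ∑ y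
(for a fixed y a bijection of G). For this z and every type (m,j,h): z - frw m j x - k! • ∑_{l≠j} y l = e + k! • y j - frw m j x, so by Sh |tst m j h z - tsy m j h e y| ≤ k θ; both are in [0,1]; the products of at most n such numbers differ by at most n k θ. So the mean differs from the mean with tsy by at most
n k θ av |ν - 1| ≤ n k θ (av ν + 1) ≤ n k θ 3 ≤ τ/2 (av ν ≤ 1 + η ≤ 2 by NLF for the set A = {fun _ => false}: the mean over (z.1, z.2) of ν(z.1 + ..) is av ν; ν ≥ 0). Pda with H = 1. -/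
def PdStmt : Prop :=
  ∀ (k n : ℕ) (τ : ℝ), 0 < τ → ∃ η θ : ℝ, 0 < η ∧ 0 < θ ∧
    ∀ (G : Type) [AddCommGroup G] [Fintype G] [DecidableEq G] (X Y : Finset G) (K n0 : ℕ) (ν : G → ℝ),
    1 ≤ K → X.Nonempty → Y.Nonempty → (∀ x, 0 ≤ ν x) → Shf k.factorial θ X Y → NLF k k.factorial η Y ν →
    ∀ L : List (G → ℝ), L.length ≤ n → (∀ φ ∈ L, φ ∈ TC k K n0 X) →
      |av (fun x => (ν x - 1) * (L.map (fun φ => φ x)).prod)| ≤ τ

/-! ### Dense theorem -/

/-- Module Law (sums of independent elements of X). Uses: nothing (GP.Rel.pMrg is proved: import Pool.Agent.Lib.MP_9f2731_nt.GP.Rel.Mrg). Proof. (1) Mrg for the injection e : ι → κ and the function x ↦ g (∑ i, x i). (2) By currying (Fin k → Fin K → X) ≃ (Fin k × Fin K → X); ∑_i inc (mu k m i) (x i) is the sum of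
the entries (i,t) with t < mu k m i; the number of these pairs is (k m + 1) + (k - 1) = k (m+1) (all k m + 1 ≤ K are available; k ≥ 1), so by (1) for the inclusion of these pairs and by (1) again for a bijection with Fin (k (m+1)) the mean depends on k (m + 1) only. -/
def LawStmt : Prop :=
  (∀ (ι κ G : Type) [Fintype ι] [Fintype κ] [DecidableEq ι] [DecidableEq κ] [AddCommGroup G] (X : Finset G)
    (e : ι → κ), X.Nonempty → Function.Injective e → ∀ g : G → ℝ,
    av (fun x : κ → X => g (∑ i : ι, ((x (e i) : X) : G))) =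
      av (fun x : ι → X => g (∑ i : ι, ((x i : X) : G)))) ∧
  ∀ (G : Type) [AddCommGroup G] (X : Finset G) (k m K : ℕ), X.Nonempty → 1 ≤ k → k * m + 1 ≤ K →
    ∀ g : G → ℝ, av (fun x : Fin k → Fin K → X => g (∑ i, inc (mu k m i) (x i))) =
      av (fun x : Fin (k * (m + 1)) → X => g (∑ t, ((x t : X) : G)))

/-- Module Apl (progressions; the mean over the forms as a mean over base point and difference). Uses: Law. Proof. frw m j x = B(x) - j • d(x), B(x) = ∑ i • inc (mu k m i) (x i), d(x) = ∑ inc (mu k m i) (x i). For fixed x substitute e' = e + B(x) - (k-1) • d(x) (a bijection of G): e + frw m j x = e' + (k-1-j) • d(x), and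
the product over j is the product over i = k-1-j (Fin.rev). So the left side is the mean over e' and x of a function of (e', d(x)); Law (second part) for g d = av over e' of ∏ F(e' + i • d). -/
def AplStmt : Prop :=
  ∀ (G : Type) [AddCommGroup G] [Fintype G] (X : Finset G) (k m K : ℕ), X.Nonempty → 1 ≤ k → k * m + 1 ≤ K →
    ∀ F : G → ℝ,
    av (fun e : G => av (fun x : Fin k → Fin K → X => ∏ j : Fin k, F (e + frw m j x))) =
      av (fun x : Fin (k * (m + 1)) → X => av (fun e : G =>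
        ∏ i : Fin k, F (e + (i : ℕ) • ∑ t, ((x t : X) : G))))

/-- Module Dnw (dense theorem). Uses: DhjStmt, Law, Apl. Proof. δ ≤ 1 WLOG (for δ > 1 nothing satisfies the hypothesis). n from DhjStmt for (k, δ/4), n0 = n + 1, c = (δ/2)^k (δ/4)/(k+1)^n. A = {e : f e ≥ δ/2}, card A ≥ (δ/2) card G. For e in G and v : Fin n → Fin k → X put σ_t = ∑_c v t c and
A_{e,v} = {w : Fin n → Fin k | e + ∑_t (w t) • σ_t ∈ A}. For fixed w, v the map e ↦ e + .. is a bijection, so the mean of card A_{e,v}/k^n is ≥ δ/2, hence card A_{e,v} ≥ (δ/4) k^n for a proportion ≥ δ/4 of the pairs (e,v). (If n = 0 the only word is empty; DhjStmt then gives a line with a wildcard in Fin 0, impossible, so n ≥ 1.) For such a pair take the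
word w : Fin n → Option (Fin k) of a line in A_{e,v}, s = number of wildcards, 1 ≤ s ≤ n: e + ∑_{w t = some a} a • σ_t + i • ∑_{w t = none} σ_t ∈ A for all i < k. Pigeonhole over the (k+1)^n words: for one word w this holds for a proportion ≥ (δ/4)/(k+1)^n of the pairs (e,v). For this w substitute
e' = e + ∑_{w t = some a} a • σ_t for fixed v: the proportion of (e',v) with e' + i • d ∈ A for all i < k, d = ∑_{w t = none} ∑_c v t c. By Law (first part: the k s entries of v at the wildcards) d is distributed as the sum of k s independent elements of X. m = s - 1 < n0: by Apl (F = indicator of A) this proportion is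
the left side of Apl for the indicator of A, and f ≥ (δ/2) times the indicator. -/
def DnwStmt : Prop :=
  ∀ (k : ℕ) (δ : ℝ), 1 ≤ k → 0 < δ → ∃ (c : ℝ) (n0 : ℕ), 0 < c ∧ 1 ≤ n0 ∧
    ∀ (G : Type) [AddCommGroup G] [Fintype G] (X : Finset G), X.Nonempty →
    ∀ f : G → ℝ, (∀ x, 0 ≤ f x ∧ f x ≤ 1) → δ * (Fintype.card G : ℝ) ≤ ∑ x, f x →
    ∃ m : ℕ, m < n0 ∧ c ≤ av (fun e : G => av (fun x : Fin k → Fin (k * n0 + 1) → X =>
      ∏ j : Fin k, f (e + frw m j x)))

/-! ### Good base points -/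

open Classical in
/-- Module Ce. Uses: Tb. Proof. u = f - f'. The set B of the e for which Cut fails is the union of B⁺ (some h with av (u(e + frw m j x) ∏_{i≠j} h i x) > τ) and B⁻ (< -τ). For B⁺ choose such an h^e for e ∈ B⁺ and put h i e = h^e i for i ≠ j, e ∈ B⁺, h i e = 0 for e ∉ B⁺ and i ≠ j, h j e = 1: AdmW (for
e ∈ B⁺ redefine nothing else; Cut only quantifies over h with the property for i ≠ j). As k ≥ 2 there is an i ≠ j and the product vanishes for e ∉ B⁺. By Tb (third part) av (u * tst m j h) = (1/card G) ∑_{e ∈ B⁺} (> τ), and it is ≤ ε, so card B⁺ τ ≤ ε card G. The same for B⁻ with the sign reversed. -/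
def CeStmt : Prop :=
  ∀ (G : Type) [AddCommGroup G] [Fintype G] (X : Finset G) (K k n0 : ℕ) (ε τ : ℝ) (f f' : G → ℝ),
    X.Nonempty → 2 ≤ k → 0 < τ → (∀ φ ∈ TC k K n0 X, |av (fun x => (f x - f' x) * φ x)| ≤ ε) →
    ∀ m : ℕ, m < n0 → ∀ j : Fin k,
    ((univ.filter (fun e : G => ¬ Cut j τ (fun x : Fin k → Fin K → X =>
      f (e + frw m j x) - f' (e + frw m j x)))).card : ℝ) ≤ 2 * ε / τ * (Fintype.card G : ℝ)

open Classical in
/-- Module He. Uses: nothing. Proof. If HLFC fails at e then |mean - 1| > η1 for some S with p.2 p.1 = false for all p ∈ S. For every S Markov: the number of e with |..| > η1 is ≤ (η/η1) card G by WLF. There are 2^(k 2^k) sets S (card (Fin k × (Fin k → Bool)) = k 2^k). -/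
def HeStmt : Prop :=
  ∀ (G : Type) [AddCommGroup G] [Fintype G] (X : Finset G) (k n0 : ℕ) (η η1 : ℝ) (ν : G → ℝ),
    0 < η1 → 0 ≤ η → WLF k n0 η X ν → ∀ m : ℕ, m < n0 →
    ((univ.filter (fun e : G => ¬ HLFC η1 (fun (j : Fin k) (x : Fin k → Fin (k * n0 + 1) → X) =>
      ν (e + frw m j x)))).card : ℝ) ≤ 2 ^ (k * 2 ^ k) * (η / η1) * (Fintype.card G : ℝ)

/-- Module Fw (the relative theorem). Uses: GP.Rel.ClStmt, DmaA, Pd, Dnw, Tb, Ce, He. Proof. (c0, n0) from Dnw for (k, δ/2) and we may take c0 ≤ 1 (decrease it); K = k n0 + 1; (η1, τ1) from Cl for (k, c0/4); ε = min (δ/2) (τ1 c0/(32 k)); (n, τ) from DmaA for ε; (η2, θ) from Pd for (k, n, τ);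
η = min η2 (η1 c0/(16 2^(k 2^k))); c = c0/4. Given ν, f: Φ = TC k K n0 X; Pd and Tb are the hypotheses of DmaA, which gives f'. As 1 ∈ Φ: av f' ≥ δ - ε ≥ δ/2. Dnw: m with c0 ≤ av_e av_x ∏ f'(e + frw m j x). NLF is monotone in η. Bad e: HLFC η1 fails (He: proportion ≤ c0/16) or Cut j τ1 fails for
some j (Ce: proportion ≤ k 2 ε/τ1 ≤ c0/16). For the other e Cl (V = Fin K → X, ν j x = ν (e + frw m j x), g j x = f (e + frw m j x), g' j x = f' (e + frw m j x), all Ind j by Tb, fourth part) gives av_x ∏ f ≥ av_x ∏ f' - c0/4. For the bad e av_x ∏ f ≥ 0 ≥ av_x ∏ f' - 1. So the mean over e is ≥ c0 - c0/8 - c0/4 ≥ c. -/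
def FwStmt : Prop := RelWStmt

end Pool.Agent.Lib.MP_9f2731_nt.QL.Rw
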