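import Pool.Agent.Lib.MP_9f2731_nt.QL.Rw.Spec

/-!
MP_9f2731_nt, QL/Rw, module Apl (helper34): the mean over the forms as a mean over base point and difference.
-/

namespace Pool.Agent.Lib.MP_9f2731_nt.QL.Rw

open Finset
open Pool.Agent.Lib.MP_9f2731_nt.GP
open Pool.Agent.Lib.MP_9f2731_nt.GP.Rel
open Pool.Agent.Lib.MP_9f2731_nt.QL

private theorem Apl_comm {α β : Type} [Fintype α] [Fintype β] (F : α → β → ℝ) :
    av (fun e : α => av (fun x : β => F e x)) = av (fun x : β => av (fun e : α => F e x)) := by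
  unfold av
  rw [← sum_div, ← sum_div, sum_comm, div_div, div_div, mul_comm]

private theorem Apl_shift {G : Type} [AddCommGroup G] [Fintype G] (c : G) (F : G → ℝ) :
    av (fun e => F (e + c)) = av F := by
  unfold av
  rw [Fintype.sum_equiv (Equiv.addRight c) (fun e => F (e + c)) F fun e => rfl]

private theorem Apl_frw {G : Type} [AddCommGroup G] {X : Finset G} {K k : ℕ} (m : ℕ) (j : Fin k)
    (x : Fin k → Fin K → X) :
    frw m j x = ∑ i : Fin k, ((i : ℕ) : ℤ) • inc (mu k m i) (x i) -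
      ((j : ℕ) : ℤ) • ∑ i : Fin k, inc (mu k m i) (x i) := by
  unfold frw
  rw [smul_sum, ← sum_sub_distrib]
  refine sum_congr rfl fun i _ => ?_
  rw [sub_smul]

private theorem Apl_fix {G : Type} [AddCommGroup G] [Fintype G] {X : Finset G} {K k : ℕ}
    (m : ℕ) (F : G → ℝ) (x : Fin k → Fin K → X) :
    av (fun e : G => ∏ j : Fin k, F (e + frw m j x)) =
      av (fun e : G => ∏ i : Fin k,
        F (e + (i : ℕ) • ∑ l : Fin k, inc (mu k m l) (x l))) := by
  set B : G := ∑ i : Fin k, ((i : ℕ) : ℤ) • inc (mu k m i) (x i) with hB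
  set d : G := ∑ l : Fin k, inc (mu k m l) (x l) with hd
  rw [← Apl_shift (B - ((k : ℤ) - 1) • d)
    (fun e => ∏ i : Fin k, F (e + (i : ℕ) • d))]
  refine congrArg av (funext fun e => ?_)
  rw [← Equiv.prod_comp Fin.revPerm (fun i : Fin k =>
    F (e + (B - ((k : ℤ) - 1) • d) + (i : ℕ) • d))]
  refine prod_congr rfl fun j _ => ?_
  rw [Apl_frw, ← hB, ← hd, Fin.revPerm_apply, Fin.val_rev]
  have h1 : ((k - ((j : ℕ) + 1) : ℕ) : ℤ) = (k : ℤ) - 1 - ((j : ℕ) : ℤ) := by
    have := j.2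
    omega
  rw [← natCast_zsmul d (k - ((j : ℕ) + 1)), h1, sub_smul ((k : ℤ) - 1)]
  exact congrArg F (by abel)

theorem pApl (hLaw : LawStmt) : AplStmt := by
  intro G _ _ X k m K hX hk hK F
  rw [Apl_comm]
  have h1 : (fun x : Fin k → Fin K → X => av (fun e : G => ∏ j : Fin k, F (e + frw m j x))) =
      fun x => (fun d : G => av (fun e : G => ∏ i : Fin k, F (e + (i : ℕ) • d)))
        (∑ i, inc (mu k m i) (x i)) := by
    funext x
    exact Apl_fix m F x
  rw [h1]
  exact hLaw.2 G X k m K hX hk hK (fun d : G => av (fun e : G => ∏ i : Fin k, F (e + (i : ℕ) • d)))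

end Pool.Agent.Lib.MP_9f2731_nt.QL.Rw
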