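import Pool.Agent.Lib.MP_9f2731_nt.QL.Rw.Spec

/-!
MP_9f2731_nt, QL/Rw, module Pd (helper41): products of test functions.
-/

namespace Pool.Agent.Lib.MP_9f2731_nt.QL.Rw

open Finset
open Pool.Agent.Lib.MP_9f2731_nt.GP
open Pool.Agent.Lib.MP_9f2731_nt.GP.Rel
open Pool.Agent.Lib.MP_9f2731_nt.QL

namespace PdAux

theorem av_nonneg {α : Type} [Fintype α] {f : α → ℝ} (h : ∀ x, 0 ≤ f x) : 0 ≤ av f := by
  unfold av
  exact div_nonneg (Finset.sum_nonneg fun x _ => h x) (by positivity)

theorem av_mono {α : Type} [Fintype α] {f g : α → ℝ} (h : ∀ x, f x ≤ g x) : av f ≤ av g := by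
  unfold av
  exact div_le_div_of_nonneg_right (Finset.sum_le_sum fun x _ => h x) (by positivity)

theorem av_le_one {α : Type} [Fintype α] {f : α → ℝ} (h : ∀ x, f x ≤ 1) : av f ≤ 1 := by
  unfold av
  refine div_le_one_of_le₀ ?_ (by positivity)
  refine (Finset.sum_le_sum fun x _ => h x).trans ?_
  simp

theorem av_add {α : Type} [Fintype α] (f g : α → ℝ) :
    av (fun x => f x + g x) = av f + av g := by
  unfold av
  rw [Finset.sum_add_distrib, add_div]

theorem av_mul_right {α : Type} [Fintype α] (c : ℝ) (g : α → ℝ) :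
    av (fun x => g x * c) = av g * c := by
  unfold av
  rw [← Finset.sum_mul, div_mul_eq_mul_div]

theorem abs_av_le {α : Type} [Fintype α] (f : α → ℝ) : |av f| ≤ av (fun x => |f x|) := by
  unfold av
  rw [abs_div, Nat.abs_cast]
  exact div_le_div_of_nonneg_right (Finset.abs_sum_le_sum_abs _ _) (by positivity)

theorem av_const {α : Type} [Fintype α] [Nonempty α] (c : ℝ) : av (fun _ : α => c) = c := by
  unfold av
  rw [Finset.sum_const, Finset.card_univ, nsmul_eq_mul]
  field_simp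

/-- translation in the group -/
theorem av_shift {G T : Type} [AddCommGroup G] [Fintype G] [Fintype T] [Nonempty T] (s : T → G)
    (F : G → ℝ) : av (fun z : G × T => F (z.1 + s z.2)) = av F := by
  unfold av
  have h1 : ∑ z : G × T, F (z.1 + s z.2) = (Fintype.card T : ℝ) * ∑ x, F x := by
    rw [Fintype.sum_prod_type_right]
    have : ∀ t : T, ∑ x, F (x + s t) = ∑ x, F x := fun t =>
      Fintype.sum_equiv (Equiv.addRight (s t)) _ _ (fun x => rfl)
    simp only [this]
    rw [Finset.sum_const, Finset.card_univ, nsmul_eq_mul]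
  have h2 : (Fintype.card T : ℝ) ≠ 0 := Nat.cast_ne_zero.2 Fintype.card_ne_zero
  rw [h1, Fintype.card_prod, Nat.cast_mul, mul_comm (Fintype.card G : ℝ), mul_div_mul_left _ _ h2]

theorem prod01 {α : Type} (L : List α) (a : α → ℝ) (ha : ∀ l ∈ L, 0 ≤ a l ∧ a l ≤ 1) :
    0 ≤ (L.map a).prod ∧ (L.map a).prod ≤ 1 := by
  induction L with
  | nil => simp
  | cons l L ih =>
    obtain ⟨h1, h2⟩ := ih (fun m hm => ha m (List.mem_cons_of_mem _ hm))
    obtain ⟨h3, h4⟩ := ha l List.mem_cons_self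
    rw [List.map_cons, List.prod_cons]
    exact ⟨mul_nonneg h3 h1, mul_le_one₀ h4 h1 h2⟩

theorem prod_diff {α : Type} (L : List α) (a b : α → ℝ) (δ : ℝ)
    (ha : ∀ l ∈ L, 0 ≤ a l ∧ a l ≤ 1) (hb : ∀ l ∈ L, 0 ≤ b l ∧ b l ≤ 1)
    (hab : ∀ l ∈ L, |a l - b l| ≤ δ) : |(L.map a).prod - (L.map b).prod| ≤ L.length * δ := by
  induction L with
  | nil => simp
  | cons l L ih =>
    have ha' := fun m (hm : m ∈ L) => ha m (List.mem_cons_of_mem l hm)
    have hb' := fun m (hm : m ∈ L) => hb m (List.mem_cons_of_mem l hm)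
    have h0 := ih ha' hb' (fun m hm => hab m (List.mem_cons_of_mem l hm))
    have h1 := prod01 L a ha'
    obtain ⟨h3, h4⟩ := hb l List.mem_cons_self
    have h5 := hab l List.mem_cons_self
    rw [List.map_cons, List.prod_cons, List.map_cons, List.prod_cons, List.length_cons]
    have e : a l * (L.map a).prod - b l * (L.map b).prod =
        (a l - b l) * (L.map a).prod + b l * ((L.map a).prod - (L.map b).prod) := by ring
    rw [e]
    refine (abs_add_le _ _).trans ?_
    rw [abs_mul, abs_mul, abs_of_nonneg h1.1, abs_of_nonneg h3]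
    have h6 : |a l - b l| * (L.map a).prod ≤ δ :=
      (mul_le_of_le_one_right (abs_nonneg _) h1.2).trans h5
    have h7 : b l * |(L.map a).prod - (L.map b).prod| ≤ L.length * δ :=
      (mul_le_of_le_one_left (abs_nonneg _) h4).trans h0
    push_cast
    linarith

end PdAux

open PdAux in
theorem pPd (h1 : ShStmt) (h2 : PdaStmt) : PdStmt := by
  classical
  intro k n τ hτ
  set B : ℝ := τ / 4 with hB
  have hBpos : 0 < B := by positivity
  refine ⟨min 1 ((B / 4) ^ (2 ^ k)), τ / (8 * ((n + 1) * (k + 1))), by positivity, by positivity, ?_⟩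
  intro G _ _ _ X Y K n0 ν hK hX hY hν hSh hNL L hLn hL
  set η : ℝ := min 1 ((B / 4) ^ (2 ^ k)) with hη
  set θ : ℝ := τ / (8 * ((n + 1) * (k + 1))) with hθ
  have hθ0 : 0 ≤ θ := by positivity
  haveI : Nonempty Y := hY.to_subtype
  haveI : Nonempty G := ⟨0⟩
  -- the list of parameters
  obtain ⟨L', hL', hLL'⟩ : ∃ L' : List (ℕ × Fin k × (Fin k → G → (Fin k → Fin K → X) → ℝ)),
      (∀ l ∈ L', AdmW l.2.2) ∧ L = L'.map (fun l => tst l.1 l.2.1 l.2.2) := by
    clear hLn
    induction L with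
    | nil => exact ⟨[], by simp, by simp⟩
    | cons φ L ih =>
      obtain ⟨L', h3, h4⟩ := ih (fun ψ hψ => hL ψ (List.mem_cons_of_mem _ hψ))
      obtain ⟨m, -, j, h, hh, hφ⟩ := hL φ List.mem_cons_self
      refine ⟨(m, j, h) :: L', fun l hl => ?_, ?_⟩
      · rcases List.mem_cons.1 hl with rfl | hl
        · exact hh
        · exact h3 l hl
      · rw [List.map_cons, ← h4, hφ]
  have hlen : L'.length ≤ n := by
    have : L.length = L'.length := by rw [hLL', List.length_map]
    omega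
  -- values in the unit interval
  have htst : ∀ l ∈ L', ∀ z, 0 ≤ tst l.1 l.2.1 l.2.2 z ∧ tst l.1 l.2.1 l.2.2 z ≤ 1 := by
    intro l hl z
    have h3 := hL' l hl
    unfold tst
    exact ⟨av_nonneg fun x => Finset.prod_nonneg fun i _ => ((h3 i _).2 x).1,
      av_le_one fun x => Finset.prod_le_one (fun i _ => ((h3 i _).2 x).1)
        (fun i _ => ((h3 i _).2 x).2)⟩
  have htsy : ∀ l ∈ L', ∀ (e : G) (y : Fin k → Y), 0 ≤ tsy l.1 l.2.1 l.2.2 e y ∧
      tsy l.1 l.2.1 l.2.2 e y ≤ 1 := by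
    intro l hl e y
    have h3 := hL' l hl
    unfold tsy
    exact ⟨av_nonneg fun x => Finset.prod_nonneg fun i _ => ((h3 i _).2 _).1,
      av_le_one fun x => Finset.prod_le_one (fun i _ => ((h3 i _).2 _).1)
        (fun i _ => ((h3 i _).2 _).2)⟩
  -- the shift
  have hsh : ∀ l ∈ L', ∀ (e : G) (y : Fin k → Y),
      |tst l.1 l.2.1 l.2.2 (e + k.factorial • ∑ a, ((y a : Y) : G)) -
        tsy l.1 l.2.1 l.2.2 e y| ≤ k * θ := by
    intro l hl e y
    have h3 := h1 k θ G X Y K hK hθ0 hX hSh l.1 l.2.1 l.2.2 (hL' l hl)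
      (e + k.factorial • ∑ a, ((y a : Y) : G)) y
    have h4 : ∀ x : Fin k → Fin K → X, e + k.factorial • ∑ a, ((y a : Y) : G) - frw l.1 l.2.1 x -
        k.factorial • ∑ a ∈ univ.erase l.2.1, ((y a : Y) : G) =
        e + k.factorial • ((y l.2.1 : Y) : G) - frw l.1 l.2.1 x := by
      intro x
      rw [← Finset.add_sum_erase univ (fun a => ((y a : Y) : G)) (Finset.mem_univ l.2.1), smul_add]
      abel
    simp only [h4] at h3
    exact h3
  -- the mean of ν
  have hmean : av ν ≤ 2 := by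
    have h3 := hNL {fun _ => false}
    simp only [Finset.prod_singleton] at h3
    have h4 : av (fun z : G × (Fin k × Bool → Y) =>
        ν (z.1 + k.factorial • ∑ a, ((z.2 (a, false) : Y) : G))) = av ν :=
      av_shift (fun t : Fin k × Bool → Y => k.factorial • ∑ a, ((t (a, false) : Y) : G)) ν
    rw [h4] at h3
    have h5 := (abs_le.1 h3).2
    have h6 : η ≤ 1 := min_le_left _ _
    linarith
  have habs : av (fun x => |ν x - 1|) ≤ 3 := by
    calc av (fun x => |ν x - 1|) ≤ av (fun x => ν x + 1) := av_mono fun x => by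
          refine (abs_sub _ _).trans ?_
          rw [abs_of_nonneg (hν x), abs_one]
      _ = av ν + 1 := by rw [av_add, av_const]
      _ ≤ 3 := by linarith
  -- the shifted mean
  have hpda := h2 k η B G X Y K ν hX hY hNL hBpos.le (by
    rw [← mul_assoc, ← mul_pow]
    have h3 : η ≤ (B / 4) ^ (2 ^ k) := min_le_right _ _
    calc (2 * 2 : ℝ) ^ (2 ^ k) * η ≤ (2 * 2 : ℝ) ^ (2 ^ k) * (B / 4) ^ (2 ^ k) :=
          mul_le_mul_of_nonneg_left h3 (by positivity)
      _ = B ^ (2 ^ k) := by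
          rw [← mul_pow]
          congr 1
          ring) L' hL' (fun _ _ _ => 1) (fun a e => ⟨fun _ _ => rfl, fun _ => ⟨zero_le_one, le_rfl⟩⟩)
  simp only [Finset.prod_const_one, one_mul] at hpda
  have hz : av (fun x => (ν x - 1) * (L.map (fun φ => φ x)).prod) =
      av (fun z : G × (Fin k → Y) => (ν (z.1 + k.factorial • ∑ a, ((z.2 a : Y) : G)) - 1) *
        (L'.map (fun l => tst l.1 l.2.1 l.2.2
          (z.1 + k.factorial • ∑ a, ((z.2 a : Y) : G)))).prod) := by
    have h3 := av_shift (fun t : Fin k → Y => k.factorial • ∑ a, ((t a : Y) : G))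
      (fun x => (ν x - 1) * (L'.map (fun l => tst l.1 l.2.1 l.2.2 x)).prod)
    rw [h3, hLL']
    congr 1
    funext x
    rw [List.map_map]
    rfl
  have hsplit : av (fun z : G × (Fin k → Y) =>
        (ν (z.1 + k.factorial • ∑ a, ((z.2 a : Y) : G)) - 1) *
        (L'.map (fun l => tst l.1 l.2.1 l.2.2
          (z.1 + k.factorial • ∑ a, ((z.2 a : Y) : G)))).prod) =
      av (fun z : G × (Fin k → Y) => (ν (z.1 + k.factorial • ∑ a, ((z.2 a : Y) : G)) - 1) *
        (L'.map (fun l => tsy l.1 l.2.1 l.2.2 z.1 z.2)).prod) +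
      av (fun z : G × (Fin k → Y) => (ν (z.1 + k.factorial • ∑ a, ((z.2 a : Y) : G)) - 1) *
        ((L'.map (fun l => tst l.1 l.2.1 l.2.2
          (z.1 + k.factorial • ∑ a, ((z.2 a : Y) : G)))).prod -
          (L'.map (fun l => tsy l.1 l.2.1 l.2.2 z.1 z.2)).prod)) := by
    rw [← av_add]
    congr 1
    funext z
    ring
  have herr : |av (fun z : G × (Fin k → Y) =>
        (ν (z.1 + k.factorial • ∑ a, ((z.2 a : Y) : G)) - 1) *
        ((L'.map (fun l => tst l.1 l.2.1 l.2.2
          (z.1 + k.factorial • ∑ a, ((z.2 a : Y) : G)))).prod -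
          (L'.map (fun l => tsy l.1 l.2.1 l.2.2 z.1 z.2)).prod))| ≤ 3 * (n * (k * θ)) := by
    refine (abs_av_le _).trans ?_
    calc av (fun z : G × (Fin k → Y) =>
        |(ν (z.1 + k.factorial • ∑ a, ((z.2 a : Y) : G)) - 1) *
        ((L'.map (fun l => tst l.1 l.2.1 l.2.2
          (z.1 + k.factorial • ∑ a, ((z.2 a : Y) : G)))).prod -
          (L'.map (fun l => tsy l.1 l.2.1 l.2.2 z.1 z.2)).prod)|)
        ≤ av (fun z : G × (Fin k → Y) =>
          |ν (z.1 + k.factorial • ∑ a, ((z.2 a : Y) : G)) - 1| * (n * (k * θ))) := by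
          refine av_mono fun z => ?_
          rw [abs_mul]
          refine mul_le_mul_of_nonneg_left ?_ (abs_nonneg _)
          refine (prod_diff L' _ _ (k * θ) (fun l hl => htst l hl _) (fun l hl => htsy l hl _ _)
            (fun l hl => hsh l hl z.1 z.2)).trans ?_
          exact mul_le_mul_of_nonneg_right (by exact_mod_cast hlen) (by positivity)
      _ = av (fun z : G × (Fin k → Y) =>
          |ν (z.1 + k.factorial • ∑ a, ((z.2 a : Y) : G)) - 1|) * (n * (k * θ)) :=
          av_mul_right _ _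
      _ = av (fun x => |ν x - 1|) * (n * (k * θ)) := by
          rw [av_shift (fun t : Fin k → Y => k.factorial • ∑ a, ((t a : Y) : G))
            (fun x => |ν x - 1|)]
      _ ≤ 3 * (n * (k * θ)) := mul_le_mul_of_nonneg_right habs (by positivity)
  have hfin : 3 * (n * (k * θ)) ≤ 3 / 8 * τ := by
    have h3 : (n : ℝ) * k ≤ (n + 1) * (k + 1) := by
      have : (0 : ℝ) ≤ n := Nat.cast_nonneg n
      have : (0 : ℝ) ≤ k := Nat.cast_nonneg k
      nlinarith
    have h4 : θ * ((n + 1) * (k + 1)) = τ / 8 := by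
      rw [hθ]
      field_simp
    have h5 : (n : ℝ) * k * θ ≤ (n + 1) * (k + 1) * θ := mul_le_mul_of_nonneg_right h3 hθ0
    nlinarith
  rw [hz, hsplit]
  refine (abs_add_le _ _).trans ?_
  calc _ ≤ B + 3 * (n * (k * θ)) := add_le_add hpda herr
    _ ≤ τ := by rw [hB]; linarith

end Pool.Agent.Lib.MP_9f2731_nt.QL.Rw
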